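import Pool.Agent.helper6.DO.Semi

/-! The second algebra does not have the dense orbit property. -/

open Quiver MvPolynomial

namespace Pool.Agent.helper6.DOrb

universe u

variable {K : Type u} [Field K]

section polymat
variable {V : Type} [Quiver.{0} V] {d : V → ℕ} {m n l : Type}

/-- matrices of polynomial functions -/
def PolyMat (F : Rep K V d → Matrix m n K) : Prop := ∀ i j, PolyFun fun M => F M i j

theorem PolyMat.const (A : Matrix m n K) : PolyMat (fun _ : Rep K V d => A) :=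
  fun i j => PolyFun.const (A i j)

theorem PolyMat.add {F G : Rep K V d → Matrix m n K} (hF : PolyMat F) (hG : PolyMat G) :
    PolyMat fun M => F M + G M := fun i j => (hF i j).add (hG i j)

theorem PolyMat.mul [Fintype n] {F : Rep K V d → Matrix m n K} {G : Rep K V d → Matrix n l K}
    (hF : PolyMat F) (hG : PolyMat G) : PolyMat fun M => F M * G M :=
  fun i j => PolyFun.sum Finset.univ (fun k M => F M i k * G M k j)
    fun k _ => (hF i k).mul (hG k j)

theorem PolyMat.smul {f : Rep K V d → K} {G : Rep K V d → Matrix m n K}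
    (hf : PolyFun f) (hG : PolyMat G) : PolyMat fun M => f M • G M :=
  fun i j => hf.mul (hG i j)

theorem PolyMat.sub {F G : Rep K V d → Matrix m n K} (hF : PolyMat F) (hG : PolyMat G) :
    PolyMat fun M => F M - G M := fun i j => (hF i j).sub (hG i j)

theorem PolyFun.prod {ι : Type*} (s : Finset ι) (f : ι → Rep K V d → K)
    (hf : ∀ i ∈ s, PolyFun (f i)) : PolyFun (fun M => ∏ i ∈ s, f i M) := by
  classical
  induction s using Finset.induction_on with
  | empty => simpa using PolyFun.const (K := K) (V := V) (d := d) 1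
  | insert a s ha ih =>
    have h1 := (hf a (Finset.mem_insert_self a s)).mul
      (ih fun i hi => hf i (Finset.mem_insert_of_mem hi))
    obtain ⟨p, hp⟩ := h1
    exact ⟨p, fun M => by rw [hp]; simp only [Finset.prod_insert ha]⟩

theorem PolyMat.det [Fintype n] [DecidableEq n] {F : Rep K V d → Matrix n n K}
    (hF : PolyMat F) : PolyFun fun M => (F M).det := by
  simp only [Matrix.det_apply']
  exact PolyFun.sum _ _ fun σ _ => (PolyFun.const _).mul (PolyFun.prod _ _ fun i _ => hF _ _)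

theorem PolyMat.adjugate [Fintype n] [DecidableEq n] {F : Rep K V d → Matrix n n K}
    (hF : PolyMat F) : PolyMat fun M => (F M).adjugate := by
  intro i j
  simp only [Matrix.adjugate_apply]
  apply PolyMat.det
  intro r s
  simp only [Matrix.updateRow_apply]
  split_ifs
  · exact PolyFun.const _
  · exact hF r s

end polymat

/-- the dimension vector -/
def dB : Vtx → ℕ
  | .v0 => 1
  | .v1 => 3
  | .v2 => 3
  | .v3 => 1

/-- the matrix of `α` -/
def mα (M : Rep K Vtx dB) : Matrix (Fin 1) (Fin 3) K := M _ _ aα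
/-- the matrix of `β` -/
def mβ (M : Rep K Vtx dB) : Matrix (Fin 3) (Fin 3) K := M _ _ aβ
/-- the matrix of `γ` -/
def mγ (M : Rep K Vtx dB) : Matrix (Fin 3) (Fin 1) K := M _ _ aγ
/-- the matrix of `x` -/
def mx (M : Rep K Vtx dB) : Matrix (Fin 3) (Fin 3) K := M _ _ ax
/-- the matrix of `y` -/
def my (M : Rep K Vtx dB) : Matrix (Fin 3) (Fin 3) K := M _ _ ay

theorem polyMat_mα : PolyMat (mα (K := K)) := by
  intro i j
  exact PolyFun.entry (K := K) (V := Vtx) (d := dB) aα i j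

theorem polyMat_mβ : PolyMat (mβ (K := K)) := by
  intro i j
  exact PolyFun.entry (K := K) (V := Vtx) (d := dB) aβ i j

theorem polyMat_mγ : PolyMat (mγ (K := K)) := by
  intro i j
  exact PolyFun.entry (K := K) (V := Vtx) (d := dB) aγ i j

theorem polyMat_mx : PolyMat (mx (K := K)) := by
  intro i j
  exact PolyFun.entry (K := K) (V := Vtx) (d := dB) ax i j

theorem polyMat_my : PolyMat (my (K := K)) := by
  intro i j
  exact PolyFun.entry (K := K) (V := Vtx) (d := dB) ay i j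


/-- the invariant closed set -/
def ZZ (a b : K) : Set (Rep K Vtx dB) :=
  {M | ∀ n μ, EE a b (mα M) (mβ M) (mγ M) (mx M) (my M) n μ}

theorem isClosed_ZZ (a b : K) : IsClosed (ZZ a b) := by
  have h := isClosed_of_polyFun (K := K) (V := Vtx) (d := dB)
    (ι := (Matrix (Fin 3) (Fin 1) K × Matrix (Fin 1) (Fin 3) K) × Fin 3 × Fin 3)
    (fun t M => ((b * (mα M * (mβ M + t.1.1 * t.1.2).adjugate * mγ M) 0 0) •
      (mx M * (mβ M + t.1.1 * t.1.2).adjugate * my M) -
      a • (mx M * (mβ M + t.1.1 * t.1.2).adjugate * mγ M *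
        (mα M * (mβ M + t.1.1 * t.1.2).adjugate * my M))) t.2.1 t.2.2)
    (by
      intro t
      have hadj := (polyMat_mβ.add (PolyMat.const (K := K) (V := Vtx) (d := dB)
        (t.1.1 * t.1.2))).adjugate
      have h1 := (polyMat_mα.mul hadj).mul polyMat_mγ
      have h2 := (polyMat_mx.mul hadj).mul polyMat_my
      have h3 := (polyMat_mx.mul hadj).mul polyMat_mγ
      have h4 := (polyMat_mα.mul hadj).mul polyMat_my
      exact ((PolyMat.smul ((PolyFun.const b).mul (h1 0 0)) h2).sub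
        (PolyMat.smul (PolyFun.const a) (h3.mul h4))) t.2.1 t.2.2)
  convert h using 1
  ext M
  constructor
  · rintro hM ⟨⟨n, μ⟩, i, j⟩
    have := hM n μ
    rw [EE] at this
    simp only
    rw [this, sub_self]
    rfl
  · intro hM n μ
    rw [EE, ← sub_eq_zero]
    ext i j
    exact hM ⟨⟨n, μ⟩, i, j⟩

theorem act_mem_ZZ (a b : K) (g : ∀ i : Vtx, GL (Fin (dB i)) K) {M : Rep K Vtx dB}
    (h : M ∈ ZZ a b) : act g M ∈ ZZ a b :=
  EE_act a b _ _ _ _ _ (g .v0) (g .v3) (g .v1) (g .v2) h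

/-- the standard square zero `3 × 3` matrix of rank one -/
def X0 (K : Type u) [Field K] : Matrix (Fin 3) (Fin 3) K := !![0, 0, 0; 1, 0, 0; 0, 0, 0]

/-- an enumeration -/
def e3 : Fin 3 ≃ Fin 1 ⊕ (Fin 1 ⊕ Fin 1) where
  toFun := ![.inr (.inl 0), .inr (.inr 0), .inl 0]
  invFun := Sum.elim (fun _ => 2) (Sum.elim (fun _ => 0) (fun _ => 1))
  left_inv := by intro i; fin_cases i <;> rfl
  right_inv := by
    rintro (i | i | i) <;> fin_cases i <;> rfl

theorem stdX_e3 : (stdX K (Fin 1) (Fin 1)).submatrix e3 e3 = X0 K := by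
  ext i j
  fin_cases i <;> fin_cases j <;> simp [stdX, m33, e3, X0]

theorem rank_one_normal (x : Matrix (Fin 3) (Fin 3) K) (hx : x * x = 0) (hne : x ≠ 0) :
    ∃ g : GL (Fin 3) K, x * g.val = g.val * X0 K := by
  obtain ⟨r, hr, H⟩ := sq_zero_normal x hx
  have hr' : r = 0 ∨ r = 1 := by omega
  rcases hr' with rfl | rfl
  · exfalso
    obtain ⟨g, hg⟩ := H (Fin 3) (Fin 0) (by simp) (by simp)
      (Fintype.equivOfCardEq (by simp))
    have h0 : stdX K (Fin 3) (Fin 0) = 0 := by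
      ext i j
      rcases i with i | i | i
      · rcases j with j | j | j
        · rfl
        · exact j.elim0
        · exact j.elim0
      · exact i.elim0
      · exact i.elim0
    rw [h0] at hg
    apply hne
    calc x = x * (g.val * (g⁻¹).val) := by
          rw [← Units.val_mul, mul_inv_cancel, Units.val_one, Matrix.mul_one]
      _ = 0 := by rw [← Matrix.mul_assoc, hg]; simp
  · obtain ⟨g, hg⟩ := H (Fin 1) (Fin 1) (by simp) (by simp) e3
    rw [stdX_e3] at hg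
    exact ⟨g, hg⟩

/-- the slice -/
def LL (K : Type u) [Field K] : Set (Rep K Vtx dB) :=
  {M | mx M = X0 K ∧ my M = X0 K ∧ mα M * X0 K = 0 ∧ X0 K * mγ M = 0 ∧ mβ M * X0 K = 0 ∧
    X0 K * mβ M = 0}

theorem X0_sq : X0 K * X0 K = 0 := by
  ext i j
  fin_cases i <;> fin_cases j <;> simp [X0, Matrix.mul_apply, Fin.sum_univ_succ]

theorem LL_subset : LL K ⊆ modVariety (idB K) dB := by
  rintro M ⟨h1, h2, h3, h4, h5, h6⟩
  rw [mem_modB]
  change mx M * mx M = 0 ∧ my M * my M = 0 ∧ mα M * mx M = 0 ∧ my M * mγ M = 0 ∧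
    mβ M * mx M = 0 ∧ my M * mβ M = 0
  rw [h1, h2]
  exact ⟨X0_sq, X0_sq, h3, h4, h5, h6⟩

theorem saturate_LL_subset : saturate (LL K) ⊆ modVariety (idB K) dB := by
  rintro _ ⟨g, h, hh, rfl⟩
  exact act_mem_modVariety _ g (LL_subset hh)

theorem LL_affine : ∀ h₁ ∈ LL K, ∀ h₂ ∈ LL K, ∀ t : K,
    (fun i j a => h₁ i j a + t • (h₂ i j a - h₁ i j a)) ∈ LL K := by
  rintro h₁ ⟨a1, a2, a3, a4, a5, a6⟩ h₂ ⟨b1, b2, b3, b4, b5, b6⟩ t
  refine ⟨?_, ?_, ?_, ?_, ?_, ?_⟩
  · show mx h₁ + t • (mx h₂ - mx h₁) = _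
    rw [a1, b1, sub_self, smul_zero, add_zero]
  · show my h₁ + t • (my h₂ - my h₁) = _
    rw [a2, b2, sub_self, smul_zero, add_zero]
  · show (mα h₁ + t • (mα h₂ - mα h₁)) * X0 K = 0
    rw [Matrix.add_mul, Matrix.smul_mul, Matrix.sub_mul, a3, b3]; simp
  · show X0 K * (mγ h₁ + t • (mγ h₂ - mγ h₁)) = 0
    rw [Matrix.mul_add, Matrix.mul_smul, Matrix.mul_sub, a4, b4]; simp
  · show (mβ h₁ + t • (mβ h₂ - mβ h₁)) * X0 K = 0
    rw [Matrix.add_mul, Matrix.smul_mul, Matrix.sub_mul, a5, b5]; simp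
  · show X0 K * (mβ h₁ + t • (mβ h₂ - mβ h₁)) = 0
    rw [Matrix.mul_add, Matrix.mul_smul, Matrix.mul_sub, a6, b6]; simp

/-- points of the slice -/
def pt (a0 a2 g1 g2 b10 b12 b20 b22 : K) : Rep K Vtx dB :=
  mkRep (d := dB) (!![a0, 0, a2] : Matrix (Fin 1) (Fin 3) K)
    (!![0, 0, 0; b10, 0, b12; b20, 0, b22] : Matrix (Fin 3) (Fin 3) K)
    (!![0; g1; g2] : Matrix (Fin 3) (Fin 1) K) (X0 K) (X0 K)

theorem pt_mem (a0 a2 g1 g2 b10 b12 b20 b22 : K) : pt a0 a2 g1 g2 b10 b12 b20 b22 ∈ LL K := by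
  refine ⟨rfl, rfl, ?_, ?_, ?_, ?_⟩
  · show (!![a0, 0, a2] : Matrix (Fin 1) (Fin 3) K) * X0 K = 0
    ext i j
    fin_cases i; fin_cases j <;> simp [X0, Matrix.mul_apply, Fin.sum_univ_succ]
  · show X0 K * (!![0; g1; g2] : Matrix (Fin 3) (Fin 1) K) = 0
    ext i j
    fin_cases j; fin_cases i <;> simp [X0, Matrix.mul_apply, Fin.sum_univ_succ]
  · show (!![0, 0, 0; b10, 0, b12; b20, 0, b22] : Matrix (Fin 3) (Fin 3) K) * X0 K = 0
    ext i j
    fin_cases i <;> fin_cases j <;> simp [X0, Matrix.mul_apply, Fin.sum_univ_succ]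
  · show X0 K * (!![0, 0, 0; b10, 0, b12; b20, 0, b22] : Matrix (Fin 3) (Fin 3) K) = 0
    ext i j
    fin_cases i <;> fin_cases j <;> simp [X0, Matrix.mul_apply, Fin.sum_univ_succ]

theorem eq_pt {M : Rep K Vtx dB} (h : M ∈ LL K) :
    ∃ a0 a2 g1 g2 b10 b12 b20 b22, M = pt a0 a2 g1 g2 b10 b12 b20 b22 := by
  obtain ⟨h1, h2, h3, h4, h5, h6⟩ := h
  refine ⟨mα M 0 0, mα M 0 2, mγ M 1 0, mγ M 2 0, mβ M 1 0, mβ M 1 2, mβ M 2 0, mβ M 2 2, ?_⟩
  have α1 : mα M 0 1 = 0 := by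
    have := congrFun (congrFun h3 0) 0
    simpa [X0, Matrix.mul_apply, Fin.sum_univ_succ] using this
  have γ0 : mγ M 0 0 = 0 := by
    have := congrFun (congrFun h4 1) 0
    simpa [X0, Matrix.mul_apply, Fin.sum_univ_succ] using this
  have β1 : ∀ i, mβ M i 1 = 0 := by
    intro i
    have := congrFun (congrFun h5 i) 0
    simpa [X0, Matrix.mul_apply, Fin.sum_univ_succ] using this
  have β0 : ∀ j, mβ M 0 j = 0 := by
    intro j
    have := congrFun (congrFun h6 1) j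
    simpa [X0, Matrix.mul_apply, Fin.sum_univ_succ] using this
  apply rep_ext
  · show mα M = !![mα M 0 0, 0, mα M 0 2]
    ext i j
    fin_cases i; fin_cases j <;> simp [α1]
  · show mβ M = !![0, 0, 0; mβ M 1 0, 0, mβ M 1 2; mβ M 2 0, 0, mβ M 2 2]
    ext i j
    fin_cases i <;> fin_cases j <;> simp [β1, β0]
  · show mγ M = !![0; mγ M 1 0; mγ M 2 0]
    ext i j
    fin_cases j; fin_cases i <;> simp [γ0]
  · exact h1
  · exact h2

theorem isClosed_mx : IsClosed {M : Rep K Vtx dB | mx M = 0} := by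
  have h := isClosed_of_polyFun (K := K) (V := Vtx) (d := dB) (ι := Fin 3 × Fin 3)
    (fun t M => mx M t.1 t.2) (fun t => polyMat_mx t.1 t.2)
  convert h using 1
  ext M
  constructor
  · rintro hM ⟨i, j⟩
    have : mx M = 0 := hM
    simp only
    rw [this]; rfl
  · intro hM
    show mx M = 0
    ext i j
    exact hM ⟨i, j⟩

theorem isClosed_my : IsClosed {M : Rep K Vtx dB | my M = 0} := by
  have h := isClosed_of_polyFun (K := K) (V := Vtx) (d := dB) (ι := Fin 3 × Fin 3)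
    (fun t M => my M t.1 t.2) (fun t => polyMat_my t.1 t.2)
  convert h using 1
  ext M
  constructor
  · rintro hM ⟨i, j⟩
    have : my M = 0 := hM
    simp only
    rw [this]; rfl
  · intro hM
    show my M = 0
    ext i j
    exact hM ⟨i, j⟩

theorem X0_ne : X0 K ≠ 0 := by
  intro h
  have := congrFun (congrFun h 1) 0
  simp [X0] at this

theorem mem_saturate {M : Rep K Vtx dB} (hM : M ∈ modVariety (idB K) dB) (hx : mx M ≠ 0)
    (hy : my M ≠ 0) : M ∈ saturate (LL K) := by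
  have hM' := (mem_modB M).1 hM
  obtain ⟨m1, m2, -⟩ := hM'
  obtain ⟨g1, hg1⟩ := rank_one_normal (mx M) m1 hx
  obtain ⟨g2, hg2⟩ := rank_one_normal (my M) m2 hy
  set g : ∀ i : Vtx, GL (Fin (dB i)) K := fun i => match i with
    | .v0 => (1 : GL (Fin 1) K)
    | .v1 => g1⁻¹
    | .v2 => g2⁻¹
    | .v3 => (1 : GL (Fin 1) K) with hg
  have hgN : act (fun i => (g i)⁻¹) (act g M) = M := by
    rw [act_mul]
    simp only [inv_mul_cancel]
    exact act_one M
  have hmem := (mem_modB _).1 (act_mem_modVariety _ g hM)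
  obtain ⟨-, -, n3, n4, n5, n6⟩ := hmem
  have hNx : mx (act g M) = X0 K := by
    show (g1⁻¹).val * mx M * ((g1⁻¹)⁻¹).val = X0 K
    rw [inv_inv, Matrix.mul_assoc, hg1, ← Matrix.mul_assoc, ← Units.val_mul, inv_mul_cancel,
      Units.val_one, Matrix.one_mul]
  have hNy : my (act g M) = X0 K := by
    show (g2⁻¹).val * my M * ((g2⁻¹)⁻¹).val = X0 K
    rw [inv_inv, Matrix.mul_assoc, hg2, ← Matrix.mul_assoc, ← Units.val_mul, inv_mul_cancel,
      Units.val_one, Matrix.one_mul]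
  refine ⟨_, act g M, ⟨hNx, hNy, ?_, ?_, ?_, ?_⟩, hgN.symm⟩
  · rw [← hNx]; exact n3
  · rw [← hNy]; exact n4
  · rw [← hNx]; exact n5
  · rw [← hNy]; exact n6

theorem isComponent_LL [Infinite K] :
    IsComponent (modVariety (idB K) dB) (closure (saturate (LL K))) := by
  have hp : pt 0 0 0 0 0 0 0 0 ∈ LL K := pt_mem 0 0 0 0 0 0 0 0
  have hirr := isIrreducible_saturate (LL K) ⟨_, hp⟩ LL_affine
  refine ⟨⟨hirr.closure, closure_minimal saturate_LL_subset (isClosed_modVariety _)⟩, ?_⟩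
  rintro C' ⟨hC', hC'm⟩ hle
  have hpc : pt 0 0 0 0 0 0 0 0 ∈ C' :=
    hle (subset_closure ⟨fun _ => 1, _, hp, (act_one _).symm⟩)
  have hcov : C' ⊆ {M : Rep K Vtx dB | mx M = 0} ∪
      ({M : Rep K Vtx dB | my M = 0} ∪ closure (saturate (LL K))) := by
    intro M hM
    by_cases hx : mx M = 0
    · exact Or.inl hx
    · by_cases hy : my M = 0
      · exact Or.inr (Or.inl hy)
      · exact Or.inr (Or.inr (subset_closure (mem_saturate (hC'm hM) hx hy)))
  have hpre := isPreirreducible_iff_isClosed_union_isClosed.1 hC'.isPreirreducible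
  rcases hpre _ _ isClosed_mx (isClosed_my.union isClosed_closure) hcov with h | h
  · exact absurd (h hpc) X0_ne
  · rcases hpre _ _ isClosed_my isClosed_closure h with h | h
    · exact absurd (h hpc) X0_ne
    · exact h

theorem pt_test (a b a0 a2 g1 g2 b10 b12 b20 b22 : K)
    (h : pt a0 a2 g1 g2 b10 b12 b20 b22 ∈ ZZ a b) :
    b * ((-b22) * (a0 * (-b22 * g1 + b12 * g2) + a2 * (b20 * g1 - b10 * g2))) =
      a * ((-b22 * g1 + b12 * g2) * (-a0 * b22 + a2 * b20)) :=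
  EE_test a b a0 a2 g1 g2 b10 b12 b20 b22 (h _ _)

theorem idB_not_isDO (K : Type u) [Field K] [Infinite K] : ¬ IsDO (idB K) := by
  intro hDO
  obtain ⟨M₀, hM₀, hC⟩ := hDO dB _ (isComponent_LL (K := K))
  have hpt : ∀ a0 a2 g1 g2 b10 b12 b20 b22 : K,
      pt a0 a2 g1 g2 b10 b12 b20 b22 ∈ closure (orbit M₀) := by
    intro a0 a2 g1 g2 b10 b12 b20 b22
    rw [← hC]
    exact subset_closure ⟨fun _ => 1, _, pt_mem _ _ _ _ _ _ _ _, (act_one _).symm⟩
  have hx : mx M₀ ≠ 0 := by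
    intro h0
    have hsub : closure (orbit M₀) ⊆ {M : Rep K Vtx dB | mx M = 0} := by
      refine closure_minimal ?_ isClosed_mx
      rintro _ ⟨g, rfl⟩
      obtain ⟨g1, hg1⟩ : ∃ g1 : GL (Fin 3) K, g1 = g .v1 := ⟨_, rfl⟩
      have e : mx (act g M₀) = g1.val * mx M₀ * (g1⁻¹).val := by rw [hg1]; rfl
      show mx (act g M₀) = 0
      rw [e, h0]; simp
    exact X0_ne (hsub (hpt 0 0 0 0 0 0 0 0))
  have hy : my M₀ ≠ 0 := by
    intro h0
    have hsub : closure (orbit M₀) ⊆ {M : Rep K Vtx dB | my M = 0} := by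
      refine closure_minimal ?_ isClosed_my
      rintro _ ⟨g, rfl⟩
      obtain ⟨g1, hg1⟩ : ∃ g1 : GL (Fin 3) K, g1 = g .v2 := ⟨_, rfl⟩
      have e : my (act g M₀) = g1.val * my M₀ * (g1⁻¹).val := by rw [hg1]; rfl
      show my (act g M₀) = 0
      rw [e, h0]; simp
    exact X0_ne (hsub (hpt 0 0 0 0 0 0 0 0))
  have hmod : M₀ ∈ modVariety (idB K) dB :=
    (closure_minimal saturate_LL_subset (isClosed_modVariety _)) hM₀
  obtain ⟨g, h, hh, rfl⟩ := mem_saturate hmod hx hy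
  obtain ⟨a0, a2, g1, g2, b10, b12, b20, b22, rfl⟩ := eq_pt hh
  -- a pair `(a, b) ≠ (0, 0)` with the point in `ZZ a b`
  have hab : ∃ a b : K, (a ≠ 0 ∨ b ≠ 0) ∧
      b * ((-b22) * (a0 * (-b22 * g1 + b12 * g2) + a2 * (b20 * g1 - b10 * g2))) =
        a * ((-b22 * g1 + b12 * g2) * (-a0 * b22 + a2 * b20)) := by
    by_cases hA : ((-b22 * g1 + b12 * g2) * (-a0 * b22 + a2 * b20)) = 0
    · by_cases hB : ((-b22) * (a0 * (-b22 * g1 + b12 * g2) + a2 * (b20 * g1 - b10 * g2))) = 0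
      · exact ⟨1, 0, Or.inl one_ne_zero, by rw [hA]; ring⟩
      · exact ⟨_, _, Or.inl hB, mul_comm _ _⟩
    · exact ⟨_, _, Or.inr hA, mul_comm _ _⟩
  obtain ⟨a, b, hne, heq⟩ := hab
  have hZ : pt a0 a2 g1 g2 b10 b12 b20 b22 ∈ ZZ a b :=
    fun n μ => EE_normal a b a0 a2 g1 g2 b10 b12 b20 b22 heq n μ
  have hZ' : act g (pt a0 a2 g1 g2 b10 b12 b20 b22) ∈ ZZ a b := act_mem_ZZ a b g hZ
  have hsub : closure (orbit (act g (pt a0 a2 g1 g2 b10 b12 b20 b22))) ⊆ ZZ a b := by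
    refine closure_minimal ?_ (isClosed_ZZ a b)
    rintro _ ⟨g', rfl⟩
    exact act_mem_ZZ a b g' hZ'
  have t1 := pt_test a b 0 1 0 1 0 1 1 0 (hsub (hpt 0 1 0 1 0 1 1 0))
  have t2 := pt_test a b 0 1 0 1 1 0 0 1 (hsub (hpt 0 1 0 1 1 0 0 1))
  rcases hne with h | h
  · apply h
    linear_combination -t1
  · apply h
    linear_combination t2

end Pool.Agent.helper6.DOrb
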