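import Pool.Agent.helper6.DO.Irr

/-! A criterion for Zariski density: a polynomial vanishing on a set that contains enough
curves with prescribed tangent directions vanishes on the whole linear space. -/

open Quiver MvPolynomial

namespace Pool.Agent.helper6.DOrb

universe u

theorem eval_smul_of_isHomogeneous {K : Type u} [Field K] {σ : Type} {n : ℕ}
    {φ : MvPolynomial σ K} (hφ : φ.IsHomogeneous n) (t : K) (v : σ → K) :
    eval (t • v) φ = t ^ n * eval v φ := by
  rw [eval_eq, eval_eq, Finset.mul_sum]
  refine Finset.sum_congr rfl fun d hd => ?_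
  have hdeg : d.degree = n := by
    by_contra hne
    exact (MvPolynomial.mem_support_iff.1 hd) (hφ.coeff_eq_zero hne)
  have : ∏ i ∈ d.support, (t • v) i ^ d i = t ^ n * ∏ i ∈ d.support, v i ^ d i := by
    simp only [Pi.smul_apply, smul_eq_mul, mul_pow, Finset.prod_mul_distrib]
    rw [Finset.prod_pow_eq_pow_sum, ← hdeg]
    rfl
  rw [this]
  ring

theorem density {K : Type u} [Field K] [Infinite K] {σ : Type} (s₀ : σ → K)
    (Hs : Submodule K (σ → K)) (O : Set (σ → K))
    (h : ∀ w ∈ Hs, ∃ w₂ ∈ Hs, {t : K | s₀ + t • w + t ^ 2 • w₂ ∉ O}.Finite)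
    (p : MvPolynomial σ K) (hp : ∀ s ∈ O, eval s p = 0) :
    ∀ w ∈ Hs, eval (s₀ + w) p = 0 := by
  classical
  by_contra hcon
  push Not at hcon
  obtain ⟨w₀, hw₀, hne₀⟩ := hcon
  set P : MvPolynomial σ K := bind₁ (fun i => C (s₀ i) + X i) p with hP
  have hPe : ∀ w : σ → K, eval w P = eval (s₀ + w) p := by
    intro w
    have e : (eval w : MvPolynomial σ K →+* K).comp
        ((bind₁ fun i => C (s₀ i) + X i : MvPolynomial σ K →ₐ[K] MvPolynomial σ K) :
          MvPolynomial σ K →+* MvPolynomial σ K) = eval (s₀ + w) := by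
      apply MvPolynomial.ringHom_ext
      · intro r; simp
      · intro i; simp
    exact RingHom.congr_fun e p
  have hex : ∃ j : ℕ, ∃ w ∈ Hs, eval w (homogeneousComponent j P) ≠ 0 := by
    by_contra hc
    push Not at hc
    apply hne₀
    rw [← hPe, ← sum_homogeneousComponent P, map_sum]
    exact Finset.sum_eq_zero fun j _ => hc j w₀ hw₀
  set k := Nat.find hex with hk
  obtain ⟨w, hw, hwk⟩ := Nat.find_spec hex
  have hlt : ∀ j < k, ∀ w ∈ Hs, eval w (homogeneousComponent j P) = 0 := by
    intro j hj w hw
    have := Nat.find_min hex hj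
    push Not at this
    exact this w hw
  obtain ⟨w₂, hw₂, hfin⟩ := h w hw
  -- the univariate polynomials `t ↦ P_j (w + t w₂)`
  set Q : ℕ → Polynomial K := fun j =>
    aeval (fun i => Polynomial.C (w i) + Polynomial.X * Polynomial.C (w₂ i))
      (homogeneousComponent j P) with hQ
  have hQe : ∀ j t, Polynomial.eval t (Q j) = eval (w + t • w₂) (homogeneousComponent j P) := by
    intro j t
    rw [hQ]
    simp only
    rw [← Polynomial.coe_evalRingHom, ← AlgHom.coe_toRingHom, ← RingHom.comp_apply]
    have : (Polynomial.evalRingHom t).comp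
        ((aeval fun i => Polynomial.C (w i) + Polynomial.X * Polynomial.C (w₂ i) :
          MvPolynomial σ K →ₐ[K] Polynomial K) : MvPolynomial σ K →+* Polynomial K) =
        (eval (w + t • w₂) : MvPolynomial σ K →+* K) := by
      apply MvPolynomial.ringHom_ext
      · intro r; simp
      · intro i; simp; ring
    rw [this]
  set N := P.totalDegree with hN
  set F : Polynomial K := ∑ j ∈ Finset.range (N + 1),
    if k ≤ j then Polynomial.X ^ (j - k) * Q j else 0 with hF
  have hkN : k ∈ Finset.range (N + 1) := by
    by_contra hc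
    rw [Finset.mem_range, not_lt] at hc
    have : homogeneousComponent k P = 0 := homogeneousComponent_eq_zero k P (by omega)
    rw [this] at hwk
    exact hwk (map_zero _)
  have hFt : ∀ t, t ^ k * Polynomial.eval t F = eval (t • w + t ^ 2 • w₂) P := by
    intro t
    have e1 : t • w + t ^ 2 • w₂ = t • (w + t • w₂) := by
      rw [smul_add, smul_smul, sq]
    rw [e1]
    conv_rhs => rw [← sum_homogeneousComponent P, map_sum]
    rw [hF, Polynomial.eval_finsetSum, Finset.mul_sum]
    refine Finset.sum_congr rfl fun j _ => ?_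
    rw [eval_smul_of_isHomogeneous (homogeneousComponent_isHomogeneous j P)]
    split_ifs with hkj
    · rw [Polynomial.eval_mul, Polynomial.eval_pow, Polynomial.eval_X, hQe, ← mul_assoc, ← pow_add]
      congr 2
      omega
    · rw [hlt j (not_le.1 hkj) _ (Hs.add_mem hw (Hs.smul_mem t hw₂))]
      simp
  have hFz : F = 0 := by
    apply Polynomial.eq_zero_of_infinite_isRoot
    have hinf : (({t : K | s₀ + t • w + t ^ 2 • w₂ ∉ O} ∪ {0})ᶜ : Set K).Infinite :=
      (hfin.union (Set.finite_singleton 0)).infinite_compl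
    refine hinf.mono fun t ht => ?_
    have ht1 : s₀ + t • w + t ^ 2 • w₂ ∈ O := by
      by_contra hc
      exact ht (Or.inl hc)
    have ht2 : t ≠ 0 := by
      intro hc
      exact ht (Or.inr hc)
    have h3 := hFt t
    rw [hPe, ← add_assoc, hp _ ht1] at h3
    have := (mul_eq_zero.1 h3).resolve_left (pow_ne_zero _ ht2)
    exact this
  have hF0 : Polynomial.eval 0 F = eval w (homogeneousComponent k P) := by
    rw [hF, Polynomial.eval_finsetSum]
    rw [Finset.sum_eq_single_of_mem k hkN]
    · simp [hQe]
    · intro j _ hjk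
      split_ifs with hkj
      · have : j - k ≠ 0 := by omega
        rw [Polynomial.eval_mul, Polynomial.eval_pow, Polynomial.eval_X, zero_pow this, zero_mul]
      · simp
  rw [hFz, Polynomial.eval_zero] at hF0
  exact hwk hF0.symm

end Pool.Agent.helper6.DOrb
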