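import Pool.Agent.helper6.DO.Blk

/-! The matrix problem: objects, infinitesimal deformations, direct sums. -/

namespace Pool.Agent.helper6.DOrb

universe u

variable {K : Type u} [Field K]

/-- an object of the matrix problem -/
structure Obj (K : Type u) (A P Q R S B : Type) where
  b11 : Matrix R P K
  b21 : Matrix S P K
  b12 : Matrix R Q K
  F0 : Matrix S Q K
  a1 : Matrix A P K
  a2 : Matrix A Q K
  g1 : Matrix R B K
  g2 : Matrix S B K

/-- a first order deformation -/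
@[ext]
structure Dfm (K : Type u) (A₁ P₁ Q₁ R₁ S₁ B₁ A₂ P₂ Q₂ R₂ S₂ B₂ : Type) where
  b11 : Matrix R₂ P₁ K
  b21 : Matrix S₂ P₁ K
  b12 : Matrix R₂ Q₁ K
  F0 : Matrix S₂ Q₁ K
  F1 : Matrix S₂ Q₁ K
  a1 : Matrix A₂ P₁ K
  a2 : Matrix A₂ Q₁ K
  g1 : Matrix R₂ B₁ K
  g2 : Matrix S₂ B₁ K

/-- an infinitesimal base change -/
structure Bch (K : Type u) (A₁ P₁ Q₁ R₁ S₁ B₁ A₂ P₂ Q₂ R₂ S₂ B₂ : Type) where
  p11 : Matrix P₂ P₁ K
  p12 : Matrix P₂ Q₁ K
  p21 : Matrix Q₂ P₁ K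
  p22 : Matrix Q₂ Q₁ K
  p23 : Matrix Q₂ Q₁ K
  q11 : Matrix R₂ R₁ K
  q12 : Matrix R₂ S₁ K
  q21 : Matrix S₂ R₁ K
  q22 : Matrix S₂ S₁ K
  q23 : Matrix S₂ S₁ K
  t0 : Matrix A₂ A₁ K
  t3 : Matrix B₂ B₁ K

section
variable {A₁ P₁ Q₁ R₁ S₁ B₁ A₂ P₂ Q₂ R₂ S₂ B₂ : Type}
  [Fintype A₁] [Fintype P₁] [Fintype Q₁] [Fintype R₁] [Fintype S₁] [Fintype B₁]
  [Fintype A₂] [Fintype P₂] [Fintype Q₂] [Fintype R₂] [Fintype S₂] [Fintype B₂]

/-- the differential of the base change action -/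
def dif (X : Obj K A₁ P₁ Q₁ R₁ S₁ B₁) (Y : Obj K A₂ P₂ Q₂ R₂ S₂ B₂)
    (G : Bch K A₁ P₁ Q₁ R₁ S₁ B₁ A₂ P₂ Q₂ R₂ S₂ B₂) :
    Dfm K A₁ P₁ Q₁ R₁ S₁ B₁ A₂ P₂ Q₂ R₂ S₂ B₂ where
  b11 := Y.b11 * G.p11 + G.q11 * X.b11
  b21 := Y.b21 * G.p11 + Y.F0 * G.p21 + (G.q21 * X.b11 + G.q22 * X.b21)
  b12 := Y.b11 * G.p12 + Y.b12 * G.p22 + (G.q11 * X.b12 + G.q12 * X.F0)
  F0 := Y.F0 * G.p22 + G.q22 * X.F0
  F1 := Y.b21 * G.p12 + Y.F0 * G.p23 + (G.q21 * X.b12 + G.q23 * X.F0)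
  a1 := Y.a1 * G.p11 + G.t0 * X.a1
  a2 := Y.a1 * G.p12 + Y.a2 * G.p22 + G.t0 * X.a2
  g1 := G.q11 * X.g1 + Y.g1 * G.t3
  g2 := G.q21 * X.g1 + G.q22 * X.g2 + Y.g2 * G.t3

/-- all first order deformations come from the base change action -/
def Tan (X : Obj K A₁ P₁ Q₁ R₁ S₁ B₁) (Y : Obj K A₂ P₂ Q₂ R₂ S₂ B₂) : Prop :=
  ∀ T : Dfm K A₁ P₁ Q₁ R₁ S₁ B₁ A₂ P₂ Q₂ R₂ S₂ B₂, ∃ G, dif X Y G = T

end

section asm
variable {κ : Type} [Fintype κ] [DecidableEq κ] {I J L : κ → Type}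

/-- assemble a matrix from its blocks -/
def asm (F : ∀ k l, Matrix (I k) (J l) K) : Matrix (Σ k, I k) (Σ l, J l) K :=
  fun a b => F a.1 b.1 a.2 b.2

theorem eq_asm (T : Matrix (Σ k, I k) (Σ l, J l) K) :
    asm (fun k l => (fun i j => T ⟨k, i⟩ ⟨l, j⟩ : Matrix (I k) (J l) K)) = T := rfl

omit [DecidableEq κ] [Fintype κ] in
theorem asm_add (F G : ∀ k l, Matrix (I k) (J l) K) :
    asm F + asm G = asm (fun k l => F k l + G k l) := by
  ext ⟨k, i⟩ ⟨l, j⟩; rfl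

theorem bd_mul_asm [∀ k, Fintype (J k)] (D : ∀ k, Matrix (I k) (J k) K)
    (F : ∀ k l, Matrix (J k) (L l) K) :
    Matrix.blockDiagonal' D * asm F = asm (fun k l => D k * F k l) := by
  ext ⟨k, i⟩ ⟨l, j⟩
  rw [Matrix.mul_apply, Fintype.sum_sigma, Finset.sum_eq_single k]
  · simp only [Matrix.blockDiagonal'_apply_eq, asm, Matrix.mul_apply]
  · intro m _ hm
    apply Finset.sum_eq_zero
    intro s _
    rw [Matrix.blockDiagonal'_apply_ne _ _ _ (Ne.symm hm), zero_mul]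
  · intro h; exact absurd (Finset.mem_univ k) h

theorem asm_mul_bd [∀ k, Fintype (J k)] (F : ∀ k l, Matrix (I k) (J l) K)
    (D : ∀ k, Matrix (J k) (L k) K) :
    asm F * Matrix.blockDiagonal' D = asm (fun k l => F k l * D l) := by
  ext ⟨k, i⟩ ⟨l, j⟩
  rw [Matrix.mul_apply, Fintype.sum_sigma, Finset.sum_eq_single l]
  · simp only [Matrix.blockDiagonal'_apply_eq, asm, Matrix.mul_apply]
  · intro m _ hm
    apply Finset.sum_eq_zero
    intro s _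
    rw [Matrix.blockDiagonal'_apply_ne _ _ _ hm, mul_zero]
  · intro h; exact absurd (Finset.mem_univ l) h

end asm

section sum
variable {κ : Type} [Fintype κ] [DecidableEq κ] {A P Q R S B : κ → Type}

/-- the direct sum of a family of objects -/
def sumObj (X : ∀ k, Obj K (A k) (P k) (Q k) (R k) (S k) (B k)) :
    Obj K (Σ k, A k) (Σ k, P k) (Σ k, Q k) (Σ k, R k) (Σ k, S k) (Σ k, B k) where
  b11 := Matrix.blockDiagonal' fun k => (X k).b11
  b21 := Matrix.blockDiagonal' fun k => (X k).b21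
  b12 := Matrix.blockDiagonal' fun k => (X k).b12
  F0 := Matrix.blockDiagonal' fun k => (X k).F0
  a1 := Matrix.blockDiagonal' fun k => (X k).a1
  a2 := Matrix.blockDiagonal' fun k => (X k).a2
  g1 := Matrix.blockDiagonal' fun k => (X k).g1
  g2 := Matrix.blockDiagonal' fun k => (X k).g2

theorem Tan.sum [∀ k, Fintype (A k)] [∀ k, Fintype (P k)] [∀ k, Fintype (Q k)]
    [∀ k, Fintype (R k)] [∀ k, Fintype (S k)] [∀ k, Fintype (B k)]
    (X : ∀ k, Obj K (A k) (P k) (Q k) (R k) (S k) (B k))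
    (h : ∀ k l, Tan (X l) (X k)) : Tan (sumObj X) (sumObj X) := by
  intro T
  have h' : ∀ k l, ∃ G, dif (X l) (X k) G =
      { b11 := fun i j => T.b11 ⟨k, i⟩ ⟨l, j⟩
        b21 := fun i j => T.b21 ⟨k, i⟩ ⟨l, j⟩
        b12 := fun i j => T.b12 ⟨k, i⟩ ⟨l, j⟩
        F0 := fun i j => T.F0 ⟨k, i⟩ ⟨l, j⟩
        F1 := fun i j => T.F1 ⟨k, i⟩ ⟨l, j⟩
        a1 := fun i j => T.a1 ⟨k, i⟩ ⟨l, j⟩
        a2 := fun i j => T.a2 ⟨k, i⟩ ⟨l, j⟩
        g1 := fun i j => T.g1 ⟨k, i⟩ ⟨l, j⟩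
        g2 := fun i j => T.g2 ⟨k, i⟩ ⟨l, j⟩ } := fun k l => h k l _
  choose G hG using h'
  refine ⟨{ p11 := asm fun k l => (G k l).p11
            p12 := asm fun k l => (G k l).p12
            p21 := asm fun k l => (G k l).p21
            p22 := asm fun k l => (G k l).p22
            p23 := asm fun k l => (G k l).p23
            q11 := asm fun k l => (G k l).q11
            q12 := asm fun k l => (G k l).q12
            q21 := asm fun k l => (G k l).q21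
            q22 := asm fun k l => (G k l).q22
            q23 := asm fun k l => (G k l).q23
            t0 := asm fun k l => (G k l).t0
            t3 := asm fun k l => (G k l).t3 }, ?_⟩
  rw [dif]
  simp only [sumObj, bd_mul_asm, asm_mul_bd, asm_add]
  ext ⟨k, i⟩ ⟨l, j⟩
  · exact congrFun (congrFun (congrArg Dfm.b11 (hG k l)) i) j
  · exact congrFun (congrFun (congrArg Dfm.b21 (hG k l)) i) j
  · exact congrFun (congrFun (congrArg Dfm.b12 (hG k l)) i) j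
  · exact congrFun (congrFun (congrArg Dfm.F0 (hG k l)) i) j
  · exact congrFun (congrFun (congrArg Dfm.F1 (hG k l)) i) j
  · exact congrFun (congrFun (congrArg Dfm.a1 (hG k l)) i) j
  · exact congrFun (congrFun (congrArg Dfm.a2 (hG k l)) i) j
  · exact congrFun (congrFun (congrArg Dfm.g1 (hG k l)) i) j
  · exact congrFun (congrFun (congrArg Dfm.g2 (hG k l)) i) j

end sum

section tanM

/-- the tangent condition for the quiver representation given by five matrices -/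
def TanM {I0 I1 I2 I3 : Type} [Fintype I0] [Fintype I1] [Fintype I2] [Fintype I3]
    (x : Matrix I1 I1 K) (y : Matrix I2 I2 K)
    (α : Matrix I0 I1 K) (β : Matrix I2 I1 K) (γ : Matrix I2 I3 K) : Prop :=
  ∀ (α1 : Matrix I0 I1 K) (β1 : Matrix I2 I1 K) (γ1 : Matrix I2 I3 K),
    β1 * x = y * β1 → α1 * x = 0 → y * γ1 = 0 →
    ∃ (φ : Matrix I1 I1 K) (ψ : Matrix I2 I2 K) (τ : Matrix I0 I0 K) (σ : Matrix I3 I3 K),
      φ * x = x * φ ∧ ψ * y = y * ψ ∧ ψ * β + β * φ = β1 ∧ τ * α + α * φ = α1 ∧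
        ψ * γ + γ * σ = γ1

variable {A P Q R S B : Type} [Fintype A] [Fintype P] [Fintype Q] [Fintype R] [Fintype S]
  [Fintype B] [DecidableEq Q] [DecidableEq S]

theorem beta_form (β : Matrix (R ⊕ (S ⊕ S)) (P ⊕ (Q ⊕ Q)) K)
    (h : β * stdX K P Q = stdX K R S * β) :
    ∃ b11 b12 F0 b21 F1, β = m33 b11 b12 0 0 F0 0 b21 F1 F0 := by
  obtain ⟨A11, A12, A13, A21, A22, A23, A31, A32, A33, rfl⟩ := eq_m33 β
  rw [stdX, stdX, m33_mul, m33_mul, m33_inj] at h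
  simp only [Matrix.mul_zero, Matrix.zero_mul, Matrix.mul_one, Matrix.one_mul, add_zero,
    zero_add] at h
  obtain ⟨⟨-, h1, -⟩, ⟨-, h2, -⟩, ⟨h3, h4, h5⟩⟩ := h
  exact ⟨A11, A12, A22, A31, A32, by rw [h1, h2, ← h3, h4]⟩

theorem alpha_form (α : Matrix A (P ⊕ (Q ⊕ Q)) K)
    (h : α * stdX K P Q = 0) : ∃ a1 a2, α = m13 a1 a2 0 := by
  obtain ⟨A1, A2, A3, rfl⟩ := eq_m13 α
  rw [stdX, m13_mul_m33, ← m13_zero, m13_inj] at h
  simp only [Matrix.mul_zero, Matrix.mul_one, add_zero, zero_add] at h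
  exact ⟨A1, A2, by rw [h.2.1]⟩

theorem gamma_form (γ : Matrix (R ⊕ (S ⊕ S)) B K)
    (h : stdX K R S * γ = 0) : ∃ g1 g2, γ = m31 g1 0 g2 := by
  obtain ⟨A1, A2, A3, rfl⟩ := eq_m31 γ
  rw [stdX, m33_mul_m31, ← m31_zero, m31_inj] at h
  simp only [Matrix.zero_mul, Matrix.one_mul, add_zero, zero_add] at h
  exact ⟨A1, A3, by rw [h.2.2]⟩

theorem Tan.tanM (X : Obj K A P Q R S B) (h : Tan X X) :
    TanM (stdX K P Q) (stdX K R S) (m13 X.a1 X.a2 0)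
      (m33 X.b11 X.b12 0 0 X.F0 0 X.b21 0 X.F0) (m31 X.g1 0 X.g2) := by
  intro α1 β1 γ1 hβ hα hγ
  obtain ⟨b11, b12, F0, b21, F1, rfl⟩ := beta_form β1 hβ
  obtain ⟨a1, a2, rfl⟩ := alpha_form α1 hα
  obtain ⟨g1, g2, rfl⟩ := gamma_form γ1 hγ
  obtain ⟨G, hG⟩ := h { b11 := b11, b21 := b21, b12 := b12, F0 := F0, F1 := F1, a1 := a1,
                        a2 := a2, g1 := g1, g2 := g2 }
  rw [dif] at hG
  simp only [Dfm.mk.injEq] at hG
  obtain ⟨h1, h2, h3, h4, h5, h6, h7, h8, h9⟩ := hG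
  refine ⟨m33 G.p11 G.p12 0 0 G.p22 0 G.p21 G.p23 G.p22,
    m33 G.q11 G.q12 0 0 G.q22 0 G.q21 G.q23 G.q22, G.t0, G.t3, ?_, ?_, ?_, ?_, ?_⟩
  · rw [stdX, m33_mul, m33_mul]; simp
  · rw [stdX, m33_mul, m33_mul]; simp
  · rw [m33_mul, m33_mul, m33_add, m33_inj, ← h1, ← h2, ← h3, ← h4, ← h5]
    refine ⟨⟨?_, ?_, ?_⟩, ⟨?_, ?_, ?_⟩, ⟨?_, ?_, ?_⟩⟩ <;>
      simp only [Matrix.zero_mul, Matrix.mul_zero, add_zero, zero_add] <;> try abel
  · rw [m13_mul_m33, mul_m13, m13_add, m13_inj, ← h6, ← h7]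
    refine ⟨?_, ?_, ?_⟩ <;>
      simp only [Matrix.zero_mul, Matrix.mul_zero, add_zero, zero_add] <;> try abel
  · rw [m33_mul_m31, m31_mul, m31_add, m31_inj, ← h8, ← h9]
    refine ⟨?_, ?_, ?_⟩ <;>
      simp only [Matrix.zero_mul, Matrix.mul_zero, add_zero, zero_add]

theorem TanM.reindex {I0 I1 I2 I3 J0 J1 J2 J3 : Type} [Fintype I0] [Fintype I1] [Fintype I2]
    [Fintype I3] [Fintype J0] [Fintype J1] [Fintype J2] [Fintype J3]
    {x : Matrix I1 I1 K} {y : Matrix I2 I2 K}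
    {α : Matrix I0 I1 K} {β : Matrix I2 I1 K} {γ : Matrix I2 I3 K} (h : TanM x y α β γ)
    (e0 : J0 ≃ I0) (e1 : J1 ≃ I1) (e2 : J2 ≃ I2) (e3 : J3 ≃ I3) :
    TanM (x.submatrix e1 e1) (y.submatrix e2 e2) (α.submatrix e0 e1) (β.submatrix e2 e1)
      (γ.submatrix e2 e3) := by
  intro α1 β1 γ1 hβ hα hγ
  obtain ⟨φ, ψ, τ, σ, h1, h2, h3, h4, h5⟩ := h (α1.submatrix e0.symm e1.symm)
    (β1.submatrix e2.symm e1.symm) (γ1.submatrix e2.symm e3.symm)
    (by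
      have := congrArg (fun m => m.submatrix e2.symm e1.symm) hβ
      simp only [← Matrix.submatrix_mul_equiv _ _ _ e1.symm _,
        ← Matrix.submatrix_mul_equiv _ _ _ e2.symm _, Matrix.submatrix_submatrix] at this
      simpa using this)
    (by
      have := congrArg (fun m => m.submatrix e0.symm e1.symm) hα
      simp only [← Matrix.submatrix_mul_equiv _ _ _ e1.symm _, Matrix.submatrix_submatrix] at this
      simpa using this)
    (by
      have := congrArg (fun m => m.submatrix e2.symm e3.symm) hγ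
      simp only [← Matrix.submatrix_mul_equiv _ _ _ e2.symm _, Matrix.submatrix_submatrix] at this
      simpa using this)
  refine ⟨φ.submatrix e1 e1, ψ.submatrix e2 e2, τ.submatrix e0 e0, σ.submatrix e3 e3,
    ?_, ?_, ?_, ?_, ?_⟩
  · rw [Matrix.submatrix_mul_equiv, Matrix.submatrix_mul_equiv, h1]
  · rw [Matrix.submatrix_mul_equiv, Matrix.submatrix_mul_equiv, h2]
  · rw [Matrix.submatrix_mul_equiv, Matrix.submatrix_mul_equiv]
    change (ψ * β + β * φ).submatrix e2 e1 = _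
    rw [h3]; simp
  · rw [Matrix.submatrix_mul_equiv, Matrix.submatrix_mul_equiv]
    change (τ * α + α * φ).submatrix e0 e1 = _
    rw [h4]; simp
  · rw [Matrix.submatrix_mul_equiv, Matrix.submatrix_mul_equiv]
    change (ψ * γ + γ * σ).submatrix e2 e3 = _
    rw [h5]; simp

end tanM

end Pool.Agent.helper6.DOrb
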