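import Pool.Agent.helper6.DO.Tck
import Pool.Agent.helper6.DO.Obj

/-! Compatible pieces satisfy the tangent condition. -/

namespace Pool.Agent.helper6.DOrb

universe u

variable {K : Type u} [Field K]

theorem sumTo_eq {R : Type*} [AddCommMonoid R] (n : ℕ) (f : ℕ → R) :
    sumTo n f = ∑ m ∈ Finset.range n, f m := by
  induction n with
  | zero => rfl
  | succ n ih => rw [sumTo, ih, Finset.sum_range_succ]

theorem Dn_add (da db : ℕ → ℕ) (X Y G H : ℕ → K) (t i j : ℕ) :
    Dn da db X Y (G + H) t i j = Dn da db X Y G t i j + Dn da db X Y H t i j := by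
  rcases t with _ | _ | _ | _ | _ | _ | _ | _ | _ | t <;>
    simp only [Dn, sumTo_eq, Pi.add_apply, mul_add, add_mul, Finset.sum_add_distrib, add_zero,
      Nat.zero_add] <;> ring

theorem Dn_smul (da db : ℕ → ℕ) (X Y G : ℕ → K) (c : K) (t i j : ℕ) :
    Dn da db X Y (c • G) t i j = c * Dn da db X Y G t i j := by
  rcases t with _ | _ | _ | _ | _ | _ | _ | _ | _ | t <;>
    simp only [Dn, sumTo_eq, Pi.smul_apply, smul_eq_mul, mul_add, Finset.mul_sum, mul_zero,
      Nat.zero_add, mul_assoc, mul_left_comm c]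

/-- `Dn` as a linear map -/
def DnL (da db : ℕ → ℕ) (X Y : ℕ → K) (t i j : ℕ) : (ℕ → K) →ₗ[K] K where
  toFun G := Dn da db X Y G t i j
  map_add' G H := Dn_add da db X Y G H t i j
  map_smul' c G := Dn_smul da db X Y G c t i j

theorem Dn_cast (da db : ℕ → ℕ) (X Y G : ℕ → ℤ) (t i j : ℕ) :
    Dn da db (fun c => (X c : K)) (fun c => (Y c : K)) (fun c => (G c : K)) t i j =
      ((Dn da db X Y G t i j : ℤ) : K) := by
  rcases t with _ | _ | _ | _ | _ | _ | _ | _ | _ | t <;>
    simp only [Dn, sumTo_eq, Int.cast_add, Int.cast_mul, Int.cast_sum, Int.cast_zero]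

/-- a piece as an object over `K` -/
def pcObj (K : Type u) [Field K] (a : ℕ) : Obj K (Fin (dm a 0)) (Fin (dm a 1)) (Fin (dm a 2))
    (Fin (dm a 3)) (Fin (dm a 4)) (Fin (dm a 5)) where
  b11 i j := ((pcZ a (2 * i + j) : ℤ) : K)
  b21 i j := ((pcZ a (4 + 2 * i + j) : ℤ) : K)
  b12 i j := ((pcZ a (8 + 2 * i + j) : ℤ) : K)
  F0 i j := ((pcZ a (12 + 2 * i + j) : ℤ) : K)
  a1 i j := ((pcZ a (16 + 2 * i + j) : ℤ) : K)
  a2 i j := ((pcZ a (20 + 2 * i + j) : ℤ) : K)
  g1 i j := ((pcZ a (24 + 2 * i + j) : ℤ) : K)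
  g2 i j := ((pcZ a (28 + 2 * i + j) : ℤ) : K)

/-- extension of a matrix by zero -/
def exz {m n : ℕ} (M : Matrix (Fin m) (Fin n) K) (i j : ℕ) : K :=
  if h : i < m ∧ j < n then M ⟨i, h.1⟩ ⟨j, h.2⟩ else 0

theorem exz_fin {m n : ℕ} (M : Matrix (Fin m) (Fin n) K) (i : Fin m) (j : Fin n) :
    exz M i j = M i j := by
  rw [exz, dif_pos ⟨i.2, j.2⟩]

theorem chk2_spec {a b : ℕ} (h : chk2 a b = true) (t i j t' i' j' : ℕ) (ht : t < 9)
    (hi : i < dm b (tt t)) (hj : j < dm a (ts t)) (ht' : t' < 9)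
    (hi' : i' < dm b (tt t')) (hj' : j' < dm a (ts t')) :
    Dn (dm a) (dm b) (pcZ a) (pcZ b) (cert a b (4 * t + 2 * i + j)) t' i' j' =
      if t' = t ∧ i' = i ∧ j' = j then 1 else 0 := by
  have h1 := allTo_spec (allTo_spec (allTo_spec h t ht) i hi) j hj
  have h2 := allTo_spec (allTo_spec (allTo_spec h1 t' ht') i' hi') j' hj'
  exact of_decide_eq_true h2

theorem tan_pc {a b : ℕ} (h : chk2 a b = true) : Tan (pcObj K a) (pcObj K b) := by
  intro T
  obtain ⟨Tn, hTn⟩ : ∃ Tn : ℕ → ℕ → ℕ → K, Tn = fun t => match t with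
    | 0 => exz T.b11
    | 1 => exz T.b21
    | 2 => exz T.b12
    | 3 => exz T.F0
    | 4 => exz T.F1
    | 5 => exz T.a1
    | 6 => exz T.a2
    | 7 => exz T.g1
    | 8 => exz T.g2
    | _ => fun _ _ => 0 := ⟨_, rfl⟩
  obtain ⟨G, hG⟩ : ∃ G : ℕ → K, G = ∑ t ∈ Finset.range 9, ∑ i ∈ Finset.range (dm b (tt t)),
    ∑ j ∈ Finset.range (dm a (ts t)), Tn t i j •
      (fun c => ((cert a b (4 * t + 2 * i + j) c : ℤ) : K)) := ⟨_, rfl⟩
  have key : ∀ t' i' j', t' < 9 → i' < dm b (tt t') → j' < dm a (ts t') →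
      Dn (dm a) (dm b) (fun c => (pcZ a c : K)) (fun c => (pcZ b c : K)) G t' i' j' =
        Tn t' i' j' := by
    intro t' i' j' ht' hi' hj'
    have e1 : Dn (dm a) (dm b) (fun c => (pcZ a c : K)) (fun c => (pcZ b c : K)) G t' i' j' =
      DnL (dm a) (dm b) (fun c => (pcZ a c : K)) (fun c => (pcZ b c : K)) t' i' j' G := rfl
    have e2 : ∀ t i j, t < 9 → i < dm b (tt t) → j < dm a (ts t) →
        DnL (dm a) (dm b) (fun c => (pcZ a c : K)) (fun c => (pcZ b c : K)) t' i' j'
          (fun c => ((cert a b (4 * t + 2 * i + j) c : ℤ) : K)) =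
            if t' = t ∧ i' = i ∧ j' = j then 1 else 0 := by
      intro t i j ht hi hj
      have : DnL (dm a) (dm b) (fun c => (pcZ a c : K)) (fun c => (pcZ b c : K)) t' i' j'
          (fun c => ((cert a b (4 * t + 2 * i + j) c : ℤ) : K)) =
          ((Dn (dm a) (dm b) (pcZ a) (pcZ b) (cert a b (4 * t + 2 * i + j)) t' i' j' : ℤ) : K) :=
        Dn_cast _ _ _ _ _ _ _ _
      rw [this, chk2_spec h t i j t' i' j' ht hi hj ht' hi' hj']
      split_ifs <;> simp
    rw [e1, hG]
    simp only [map_sum, map_smul]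
    rw [Finset.sum_eq_single t', Finset.sum_eq_single i', Finset.sum_eq_single j']
    · rw [e2 _ _ _ ht' hi' hj', if_pos ⟨rfl, rfl, rfl⟩, smul_eq_mul, mul_one]
    · intro j hj hne
      rw [e2 _ _ _ ht' hi' (Finset.mem_range.1 hj), if_neg (fun hc => hne hc.2.2.symm), smul_zero]
    · intro hc; exact absurd (Finset.mem_range.2 hj') hc
    · intro i hi hne
      refine Finset.sum_eq_zero fun j hj => ?_
      rw [e2 _ _ _ ht' (Finset.mem_range.1 hi) (Finset.mem_range.1 hj),
        if_neg (fun hc => hne hc.2.1.symm), smul_zero]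
    · intro hc; exact absurd (Finset.mem_range.2 hi') hc
    · intro t ht hne
      refine Finset.sum_eq_zero fun i hi => Finset.sum_eq_zero fun j hj => ?_
      rw [e2 _ _ _ (Finset.mem_range.1 ht) (Finset.mem_range.1 hi) (Finset.mem_range.1 hj),
        if_neg (fun hc => hne hc.1.symm), smul_zero]
    · intro hc; exact absurd (Finset.mem_range.2 ht') hc
  refine ⟨{ p11 := fun i j => G (2 * i + j)
            p12 := fun i j => G (4 + 2 * i + j)
            p21 := fun i j => G (8 + 2 * i + j)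
            p22 := fun i j => G (12 + 2 * i + j)
            p23 := fun i j => G (16 + 2 * i + j)
            q11 := fun i j => G (20 + 2 * i + j)
            q12 := fun i j => G (24 + 2 * i + j)
            q21 := fun i j => G (28 + 2 * i + j)
            q22 := fun i j => G (32 + 2 * i + j)
            q23 := fun i j => G (36 + 2 * i + j)
            t0 := fun i j => G (40 + 2 * i + j)
            t3 := fun i j => G (44 + 2 * i + j) }, ?_⟩
  ext i j
  · have h1 := key 0 i j (by norm_num) i.2 j.2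
    rw [hTn] at h1
    simp only [exz_fin] at h1
    rw [← h1]
    simp only [Dn, sumTo_eq, Finset.sum_range]
    rfl
  · have h1 := key 1 i j (by norm_num) i.2 j.2
    rw [hTn] at h1
    simp only [exz_fin] at h1
    rw [← h1]
    simp only [Dn, sumTo_eq, Finset.sum_range]
    rfl
  · have h1 := key 2 i j (by norm_num) i.2 j.2
    rw [hTn] at h1
    simp only [exz_fin] at h1
    rw [← h1]
    simp only [Dn, sumTo_eq, Finset.sum_range]
    rfl
  · have h1 := key 3 i j (by norm_num) i.2 j.2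
    rw [hTn] at h1
    simp only [exz_fin] at h1
    rw [← h1]
    simp only [Dn, sumTo_eq, Finset.sum_range]
    rfl
  · have h1 := key 4 i j (by norm_num) i.2 j.2
    rw [hTn] at h1
    simp only [exz_fin] at h1
    rw [← h1]
    simp only [Dn, sumTo_eq, Finset.sum_range]
    rfl
  · have h1 := key 5 i j (by norm_num) i.2 j.2
    rw [hTn] at h1
    simp only [exz_fin] at h1
    rw [← h1]
    simp only [Dn, sumTo_eq, Finset.sum_range]
    rfl
  · have h1 := key 6 i j (by norm_num) i.2 j.2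
    rw [hTn] at h1
    simp only [exz_fin] at h1
    rw [← h1]
    simp only [Dn, sumTo_eq, Finset.sum_range]
    rfl
  · have h1 := key 7 i j (by norm_num) i.2 j.2
    rw [hTn] at h1
    simp only [exz_fin] at h1
    rw [← h1]
    simp only [Dn, sumTo_eq, Finset.sum_range]
    rfl
  · have h1 := key 8 i j (by norm_num) i.2 j.2
    rw [hTn] at h1
    simp only [exz_fin] at h1
    rw [← h1]
    simp only [Dn, sumTo_eq, Finset.sum_range]
    rfl

end Pool.Agent.helper6.DOrb
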