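import Pool.Agent.helper6.DO.Exch
import Pool.Agent.helper6.DO.PTan

/-! Existence of generic objects in every dimension vector. -/

namespace Pool.Agent.helper6.DOrb

universe u

variable {K : Type u} [Field K]

theorem tan_of_ee {a b : ℕ} (ha : a < 32) (hb : b < 32) (h1 : ee a b = 0) (h2 : ee b a = 0) :
    Tan (pcObj K a) (pcObj K b) := by
  apply tan_pc
  have h := allTo_spec (allTo_spec chk3_true a ha) b hb
  rw [h1, h2] at h
  simpa using h

theorem card_sigma_list (l : List ℕ) (t : ℕ) :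
    Fintype.card (Σ k : Fin l.length, Fin (dm (l.get k) t)) = (l.map fun a => dm a t).sum := by
  rw [Fintype.card_sigma]
  simp only [Fintype.card_fin]
  conv_rhs => rw [← List.ofFn_get l, List.map_ofFn, List.sum_ofFn]
  rfl

theorem exists_obj (K : Type u) [Field K] (v : ℕ → ℕ) :
    ∃ (A P Q R S B : Type) (_ : Fintype A) (_ : Fintype P) (_ : Fintype Q) (_ : Fintype R)
      (_ : Fintype S) (_ : Fintype B) (_ : DecidableEq Q) (_ : DecidableEq S)
      (X : Obj K A P Q R S B), Fintype.card A = v 0 ∧ Fintype.card P = v 1 ∧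
      Fintype.card Q = v 2 ∧ Fintype.card R = v 3 ∧ Fintype.card S = v 4 ∧
      Fintype.card B = v 5 ∧ Tan X X := by
  obtain ⟨s, hs32, hsv, hse⟩ := exists_ms v
  obtain ⟨l, rfl⟩ := Quot.exists_rep s
  change ∀ a ∈ (l : Multiset ℕ), _ at hs32
  change ∀ t < 6, ((l : Multiset ℕ).map _).sum = _ at hsv
  change ∀ a ∈ (l : Multiset ℕ), ∀ b ∈ (l : Multiset ℕ), _ at hse
  have hsv' : ∀ t < 6, (l.map fun a => dm a t).sum = v t := by
    intro t ht
    have := hsv t ht
    simpa using this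
  refine ⟨Σ k : Fin l.length, Fin (dm (l.get k) 0), Σ k : Fin l.length, Fin (dm (l.get k) 1),
    Σ k : Fin l.length, Fin (dm (l.get k) 2), Σ k : Fin l.length, Fin (dm (l.get k) 3),
    Σ k : Fin l.length, Fin (dm (l.get k) 4), Σ k : Fin l.length, Fin (dm (l.get k) 5),
    inferInstance, inferInstance, inferInstance, inferInstance, inferInstance, inferInstance,
    inferInstance, inferInstance, sumObj fun k => pcObj K (l.get k), ?_, ?_, ?_, ?_, ?_, ?_, ?_⟩
  · rw [card_sigma_list, hsv' 0 (by norm_num)]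
  · rw [card_sigma_list, hsv' 1 (by norm_num)]
  · rw [card_sigma_list, hsv' 2 (by norm_num)]
  · rw [card_sigma_list, hsv' 3 (by norm_num)]
  · rw [card_sigma_list, hsv' 4 (by norm_num)]
  · rw [card_sigma_list, hsv' 5 (by norm_num)]
  · apply Tan.sum
    intro k k'
    have hk : l.get k ∈ (l : Multiset ℕ) := by simp
    have hk' : l.get k' ∈ (l : Multiset ℕ) := by simp
    exact tan_of_ee (hs32 _ hk') (hs32 _ hk) (hse _ hk' _ hk) (hse _ hk _ hk')

/-- generic representations with prescribed ranks of the two loops -/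
theorem exists_gen (K : Type u) [Field K] (d0 d1 d2 d3 r1 r2 : ℕ) (h1 : 2 * r1 ≤ d1)
    (h2 : 2 * r2 ≤ d2) :
    ∃ (P Q R S : Type) (_ : Fintype P) (_ : Fintype Q) (_ : Fintype R) (_ : Fintype S)
      (_ : DecidableEq Q) (_ : DecidableEq S)
      (_ : Fintype.card P = d1 - 2 * r1) (_ : Fintype.card Q = r1)
      (_ : Fintype.card R = d2 - 2 * r2) (_ : Fintype.card S = r2)
      (e1 : Fin d1 ≃ P ⊕ (Q ⊕ Q)) (e2 : Fin d2 ≃ R ⊕ (S ⊕ S))
      (α : Matrix (Fin d0) (Fin d1) K) (β : Matrix (Fin d2) (Fin d1) K)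
      (γ : Matrix (Fin d2) (Fin d3) K),
      β * (stdX K P Q).submatrix e1 e1 = (stdX K R S).submatrix e2 e2 * β ∧
      α * (stdX K P Q).submatrix e1 e1 = 0 ∧ (stdX K R S).submatrix e2 e2 * γ = 0 ∧
      TanM ((stdX K P Q).submatrix e1 e1) ((stdX K R S).submatrix e2 e2) α β γ := by
  obtain ⟨A, P, Q, R, S, B, _, _, _, _, _, _, _, _, X, hA, hP, hQ, hR, hS, hB, hX⟩ :=
    exists_obj K (fun t => [d0, d1 - 2 * r1, r1, d2 - 2 * r2, r2, d3].getD t 0)
  change _ = d0 at hA
  change _ = d1 - 2 * r1 at hP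
  change _ = r1 at hQ
  change _ = d2 - 2 * r2 at hR
  change _ = r2 at hS
  change _ = d3 at hB
  have e0 : Fin d0 ≃ A := Fintype.equivOfCardEq (by rw [Fintype.card_fin, hA])
  have e3 : Fin d3 ≃ B := Fintype.equivOfCardEq (by rw [Fintype.card_fin, hB])
  have e1 : Fin d1 ≃ P ⊕ (Q ⊕ Q) := Fintype.equivOfCardEq (by
    rw [Fintype.card_fin, Fintype.card_sum, Fintype.card_sum, hP, hQ]; omega)
  have e2 : Fin d2 ≃ R ⊕ (S ⊕ S) := Fintype.equivOfCardEq (by
    rw [Fintype.card_fin, Fintype.card_sum, Fintype.card_sum, hR, hS]; omega)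
  refine ⟨P, Q, R, S, inferInstance, inferInstance, inferInstance, inferInstance, inferInstance,
    inferInstance, hP, hQ, hR, hS, e1, e2, (m13 X.a1 X.a2 0).submatrix e0 e1,
    (m33 X.b11 X.b12 0 0 X.F0 0 X.b21 0 X.F0).submatrix e2 e1,
    (m31 X.g1 0 X.g2).submatrix e2 e3, ?_, ?_, ?_, hX.tanM.reindex e0 e1 e2 e3⟩
  · rw [Matrix.submatrix_mul_equiv, Matrix.submatrix_mul_equiv, stdX, stdX, m33_mul, m33_mul]
    simp
  · rw [Matrix.submatrix_mul_equiv, stdX, m13_mul_m33]
    simp [m13_zero]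
  · rw [Matrix.submatrix_mul_equiv, stdX, m33_mul_m31]
    simp [m31_zero]

end Pool.Agent.helper6.DOrb
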