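import Pool.Agent.helper6.DO.Blk

/-! Normal form of square zero matrices. -/

namespace Pool.Agent.helper6.DOrb

universe u

variable {K : Type u} [Field K]

open Module

/-- a square zero matrix is conjugate to a standard one -/
theorem sq_zero_normal {n : ℕ} (x : Matrix (Fin n) (Fin n) K) (hx : x * x = 0) :
    ∃ r : ℕ, 2 * r ≤ n ∧ ∀ (P Q : Type) [Fintype P] [Fintype Q] [DecidableEq Q],
      Fintype.card P = n - 2 * r → Fintype.card Q = r →
      ∀ e : Fin n ≃ P ⊕ (Q ⊕ Q), ∃ g : GL (Fin n) K,
        x * (g : Matrix (Fin n) (Fin n) K) = (g : Matrix (Fin n) (Fin n) K) *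
          (stdX K P Q).submatrix e e := by
  classical
  set f : (Fin n → K) →ₗ[K] (Fin n → K) := Matrix.toLin' x with hf
  have hff : ∀ v, f (f v) = 0 := by
    intro v
    rw [hf, ← LinearMap.comp_apply, ← Matrix.toLin'_mul, hx]
    simp
  obtain ⟨U, hU⟩ := Submodule.exists_isCompl (LinearMap.ker f)
  obtain ⟨W', hW'⟩ := Submodule.exists_isCompl (LinearMap.range f)
  set W : Submodule K (Fin n → K) := W' ⊓ LinearMap.ker f with hWdef
  have hdU : finrank K U = finrank K (LinearMap.range f) := by
    have h1 := Submodule.finrank_add_eq_of_isCompl hU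
    have h2 := LinearMap.finrank_range_add_finrank_ker f
    omega
  have hle : LinearMap.range f ≤ LinearMap.ker f := by
    rintro _ ⟨v, rfl⟩
    exact hff v
  have hinf : LinearMap.range f ⊓ W = ⊥ := by
    rw [hWdef, ← inf_assoc, hW'.inf_eq_bot, bot_inf_eq]
  have hsup : LinearMap.range f ⊔ W = LinearMap.ker f := by
    rw [hWdef, ← sup_inf_assoc_of_le _ hle, hW'.sup_eq_top, top_inf_eq]
  have hdW : finrank K W + finrank K (LinearMap.range f) = finrank K (LinearMap.ker f) := by
    have h1 := Submodule.finrank_sup_add_finrank_inf_eq (LinearMap.range f) W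
    rw [hinf, hsup, finrank_bot] at h1
    omega
  have hn : finrank K (LinearMap.range f) + finrank K (LinearMap.ker f) = n := by
    have := LinearMap.finrank_range_add_finrank_ker f
    rw [this]
    simp
  refine ⟨finrank K (LinearMap.range f), by omega, ?_⟩
  intro P Q _ _ _ hP hQ e
  have bU : Basis Q K U := by
    have b := Module.finBasis K U
    refine b.reindex (Fintype.equivOfCardEq ?_)
    rw [Fintype.card_fin, hQ, hdU]
  have bW : Basis P K W := by
    have b := Module.finBasis K W
    refine b.reindex (Fintype.equivOfCardEq ?_)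
    rw [Fintype.card_fin, hP]
    omega
  set v : P ⊕ (Q ⊕ Q) → (Fin n → K) := Sum.elim (fun p => (bW p : Fin n → K))
    (Sum.elim (fun q => (bU q : Fin n → K)) (fun q => f (bU q))) with hv
  have hli : LinearIndependent K v := by
    rw [Fintype.linearIndependent_iff]
    intro c hc
    rw [Fintype.sum_sum_type, Fintype.sum_sum_type] at hc
    simp only [hv, Sum.elim_inl, Sum.elim_inr] at hc
    obtain ⟨w, hw⟩ : ∃ w : W, w = ∑ p, c (.inl p) • bW p := ⟨_, rfl⟩
    obtain ⟨u, hu⟩ : ∃ u : U, u = ∑ q, c (.inr (.inl q)) • bU q := ⟨_, rfl⟩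
    obtain ⟨u', hu'⟩ : ∃ u : U, u = ∑ q, c (.inr (.inr q)) • bU q := ⟨_, rfl⟩
    have e1 : ∑ p, c (.inl p) • (bW p : Fin n → K) = (w : Fin n → K) := by
      rw [hw]; simp
    have e2 : ∑ q, c (.inr (.inl q)) • (bU q : Fin n → K) = (u : Fin n → K) := by
      rw [hu]; simp
    have e3 : ∑ q, c (.inr (.inr q)) • f (bU q) = f (u' : Fin n → K) := by
      rw [hu']; simp
    rw [e1, e2, e3] at hc
    have hwk : f w = 0 := by
      have : (w : Fin n → K) ∈ W' ⊓ LinearMap.ker f := w.2
      exact this.2
    have hfu : f u = 0 := by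
      have := congrArg f hc
      rw [map_add, map_add, hff, map_zero, add_zero, hwk, zero_add] at this
      exact this
    have hu0 : (u : Fin n → K) = 0 := by
      have := (Submodule.disjoint_def.1 hU.disjoint) (u : Fin n → K) (LinearMap.mem_ker.2 hfu) u.2
      exact this
    have hu00 : u = 0 := by ext1; exact hu0
    rw [hu0, zero_add] at hc
    have hw0 : (w : Fin n → K) = 0 := by
      have : (w : Fin n → K) ∈ LinearMap.range f ⊓ W := by
        refine ⟨⟨-(u' : Fin n → K), ?_⟩, w.2⟩
        rw [map_neg]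
        exact (eq_neg_of_add_eq_zero_left hc).symm
      rw [hinf] at this
      exact this
    have hw00 : w = 0 := by ext1; exact hw0
    have hfu' : f u' = 0 := by
      rw [hw0] at hc
      simpa using hc
    have hu0' : u' = 0 := by
      ext1
      exact (Submodule.disjoint_def.1 hU.disjoint) (u' : Fin n → K) (LinearMap.mem_ker.2 hfu') u'.2
    rintro (p | q | q)
    · exact (Fintype.linearIndependent_iff.1 bW.linearIndependent) _ (hw ▸ hw00) p
    · exact (Fintype.linearIndependent_iff.1 bU.linearIndependent) _ (hu ▸ hu00) q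
    · exact (Fintype.linearIndependent_iff.1 bU.linearIndependent) _ (hu' ▸ hu0') q
  obtain ⟨G, hG⟩ : ∃ G : Matrix (Fin n) (Fin n) K, G = Matrix.of fun i j => v (e j) i := ⟨_, rfl⟩
  have hGu : IsUnit G := by
    rw [← Matrix.linearIndependent_cols_iff_isUnit]
    have : G.col = v ∘ e := by
      rw [hG]; rfl
    rw [this]
    exact hli.comp e e.injective
  refine ⟨hGu.unit, ?_⟩
  rw [IsUnit.unit_spec]
  ext i j
  have hL : (x * G) i j = f (v (e j)) i := by
    rw [hf, Matrix.toLin'_apply, Matrix.mul_apply, hG]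
    rfl
  rw [hL, Matrix.mul_apply]
  have hR : ∑ k, G i k * (stdX K P Q).submatrix e e k j =
      ∑ a, v a i * stdX K P Q a (e j) := by
    rw [hG, ← e.sum_comp]
    rfl
  rw [hR, Fintype.sum_sum_type, Fintype.sum_sum_type]
  have hker : ∀ w : W, f w = 0 := by
    intro w
    have : (w : Fin n → K) ∈ W' ⊓ LinearMap.ker f := w.2
    exact this.2
  clear_value v
  subst hv
  rcases e j with p | q | q
  · simp only [Sum.elim_inl, stdX, m33, Matrix.zero_apply, mul_zero, Finset.sum_const_zero,
      add_zero]
    rw [hker]; rfl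
  · simp only [Sum.elim_inl, Sum.elim_inr, stdX, m33, Matrix.zero_apply, mul_zero,
      Finset.sum_const_zero, add_zero, zero_add, Matrix.one_apply]
    simp
  · simp only [Sum.elim_inr, stdX, m33, Matrix.zero_apply, mul_zero,
      Finset.sum_const_zero, add_zero]
    rw [hff]; rfl

end Pool.Agent.helper6.DOrb
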