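import Pool.Agent.helper6.DO.Quiv
import Pool.Agent.helper6.DO.Density
import Pool.Agent.helper6.DO.Gen
import Pool.Agent.helper6.DO.Sq

/-! The first algebra has the dense orbit property. -/

open Quiver MvPolynomial

namespace Pool.Agent.helper6.DOrb

universe u

variable {K : Type u} [Field K] {d : Vtx → ℕ}

theorem finite_det {n : ℕ} (A : Matrix (Fin n) (Fin n) K) :
    {t : K | (1 + t • A).det = 0}.Finite := by
  classical
  have h0 : (lineMat (1 : Matrix (Fin n) (Fin n) K) (1 + A)).det ≠ 0 := by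
    intro h
    have := eval_det_lineMat (1 : Matrix (Fin n) (Fin n) K) (1 + A) 0
    rw [h] at this
    simp at this
  refine ((lineMat (1 : Matrix (Fin n) (Fin n) K) (1 + A)).det.roots.toFinset.finite_toSet).subset
    ?_
  intro t ht
  rw [Finset.mem_coe, Multiset.mem_toFinset, Polynomial.mem_roots h0, Polynomial.IsRoot,
    eval_det_lineMat]
  simpa using ht

/-- the representation with given coordinates -/
def uncoords (w : Coord Vtx d → K) : Rep K Vtx d := fun i j a r s => w ⟨i, j, a, r, s⟩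

/-- the linear space of deformations inside a stratum -/
def defSub (x0 : Matrix (Fin (d .v1)) (Fin (d .v1)) K) (y0 : Matrix (Fin (d .v2)) (Fin (d .v2)) K) :
    Submodule K (Coord Vtx d → K) where
  carrier := {w | uncoords w _ _ ax = 0 ∧ uncoords w _ _ ay = 0 ∧
    uncoords w _ _ aβ * x0 = y0 * uncoords w _ _ aβ ∧ uncoords w _ _ aα * x0 = 0 ∧
    y0 * uncoords w _ _ aγ = 0}
  add_mem' := by
    rintro w w' ⟨h1, h2, h3, h4, h5⟩ ⟨h1', h2', h3', h4', h5'⟩
    have e : ∀ (i j : Vtx) (a : i ⟶ j), uncoords (w + w') i j a =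
      uncoords w i j a + uncoords w' i j a := fun _ _ _ => rfl
    refine ⟨?_, ?_, ?_, ?_, ?_⟩
    · rw [e, h1, h1', add_zero]
    · rw [e, h2, h2', add_zero]
    · rw [e, Matrix.add_mul, Matrix.mul_add, h3, h3']
    · rw [e, Matrix.add_mul, h4, h4', add_zero]
    · rw [e, Matrix.mul_add, h5, h5', add_zero]
  zero_mem' := by
    have e : ∀ (i j : Vtx) (a : i ⟶ j), uncoords (0 : Coord Vtx d → K) i j a = 0 :=
      fun _ _ _ => rfl
    refine ⟨?_, ?_, ?_, ?_, ?_⟩
    · rw [e]
    · rw [e]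
    · rw [e, Matrix.zero_mul, Matrix.mul_zero]
    · rw [e, Matrix.zero_mul]
    · rw [e, Matrix.mul_zero]
  smul_mem' := by
    rintro c w ⟨h1, h2, h3, h4, h5⟩
    have e : ∀ (i j : Vtx) (a : i ⟶ j), uncoords (c • w) i j a = c • uncoords w i j a :=
      fun _ _ _ => rfl
    refine ⟨?_, ?_, ?_, ?_, ?_⟩
    · rw [e, h1, smul_zero]
    · rw [e, h2, smul_zero]
    · rw [e, Matrix.smul_mul, Matrix.mul_smul, h3]
    · rw [e, Matrix.smul_mul, h4, smul_zero]
    · rw [e, Matrix.mul_smul, h5, smul_zero]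

/-- the orbit of a representation satisfying the tangent condition is dense in its stratum -/
theorem stratum_dense [Infinite K] (x0 : Matrix (Fin (d .v1)) (Fin (d .v1)) K)
    (y0 : Matrix (Fin (d .v2)) (Fin (d .v2)) K)
    (α : Matrix (Fin (d .v0)) (Fin (d .v1)) K) (β : Matrix (Fin (d .v2)) (Fin (d .v1)) K)
    (γ : Matrix (Fin (d .v2)) (Fin (d .v3)) K)
    (hβ : β * x0 = y0 * β) (hα : α * x0 = 0) (hγ : y0 * γ = 0) (hT : TanM x0 y0 α β γ)
    (N : Rep K Vtx d) (hNx : N _ _ ax = x0) (hNy : N _ _ ay = y0)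
    (hNβ : N _ _ aβ * x0 = y0 * N _ _ aβ) (hNα : N _ _ aα * x0 = 0) (hNγ : y0 * N _ _ aγ = 0) :
    N ∈ closure (orbit (mkRep α β γ x0 y0)) := by
  classical
  set M₀ : Rep K Vtx d := mkRep α β γ x0 y0 with hM₀
  rw [mem_closure_rep_iff]
  intro p hp
  have key := density (coords M₀) (defSub x0 y0) (coords '' (orbit M₀)) ?_ p ?_
      (coords N - coords M₀) ?_
  · rwa [add_sub_cancel] at key
  · rintro w ⟨h1, h2, h3, h4, h5⟩
    obtain ⟨φ, ψ, τ, σ, k1, k2, k3, k4, k5⟩ := hT _ _ _ h3 h4 h5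
    refine ⟨coords (mkRep (τ * α * φ) (ψ * β * φ) (ψ * γ * σ) 0 0), ?_, ?_⟩
    · refine ⟨rfl, rfl, ?_, ?_, ?_⟩
      · show ψ * β * φ * x0 = y0 * (ψ * β * φ)
        rw [Matrix.mul_assoc, k1, ← Matrix.mul_assoc, Matrix.mul_assoc ψ, hβ, ← Matrix.mul_assoc ψ,
          k2]
        simp only [Matrix.mul_assoc]
      · show τ * α * φ * x0 = 0
        rw [Matrix.mul_assoc, k1, ← Matrix.mul_assoc, Matrix.mul_assoc τ, hα]
        simp
      · show y0 * (ψ * γ * σ) = 0
        rw [← Matrix.mul_assoc, ← Matrix.mul_assoc, ← k2, Matrix.mul_assoc ψ, hγ]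
        simp
    · refine ((((finite_det φ).union (finite_det ψ)).union (finite_det τ)).union
        (finite_det σ)).subset ?_
      intro t ht
      by_contra hcon
      simp only [Set.mem_union, Set.mem_ofPred_eq, not_or] at hcon
      obtain ⟨⟨⟨c1, c2⟩, c3⟩, c4⟩ := hcon
      apply ht
      set g1 := (1 + t • φ).nonsingInvUnit (isUnit_iff_ne_zero.2 c1) with hg1
      set g2 := (1 + t • ψ).nonsingInvUnit (isUnit_iff_ne_zero.2 c2) with hg2
      set g0 := (1 + t • τ).nonsingInvUnit (isUnit_iff_ne_zero.2 c3) with hg0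
      set g3 := (1 + t • σ).nonsingInvUnit (isUnit_iff_ne_zero.2 c4) with hg3
      have hg1v : (g1 : Matrix _ _ K) = 1 + t • φ := rfl
      have hg2v : (g2 : Matrix _ _ K) = 1 + t • ψ := rfl
      have hg0v : (g0 : Matrix _ _ K) = 1 + t • τ := rfl
      have hg3v : (g3 : Matrix _ _ K) = 1 + t • σ := rfl
      set g : ∀ i : Vtx, GL (Fin (d i)) K := fun i => match i with
        | .v0 => g0
        | .v1 => g1⁻¹
        | .v2 => g2
        | .v3 => g3⁻¹ with hg
      refine ⟨act g M₀, ⟨g, rfl⟩, ?_⟩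
      have ecomm1 : (g1 : Matrix _ _ K) * x0 = x0 * (g1 : Matrix _ _ K) := by
        rw [hg1v, Matrix.add_mul, Matrix.mul_add, Matrix.one_mul, Matrix.mul_one,
          Matrix.smul_mul, Matrix.mul_smul, k1]
      have ecomm2 : (g2 : Matrix _ _ K) * y0 = y0 * (g2 : Matrix _ _ K) := by
        rw [hg2v, Matrix.add_mul, Matrix.mul_add, Matrix.one_mul, Matrix.mul_one,
          Matrix.smul_mul, Matrix.mul_smul, k2]
      have main : act g M₀ = fun i j a => M₀ i j a + t • uncoords w i j a + t ^ 2 •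
          (mkRep (τ * α * φ) (ψ * β * φ) (ψ * γ * σ) 0 0 : Rep K Vtx d) i j a := by
        apply rep_ext
        · show g0.val * α * ((g1⁻¹)⁻¹).val =
            α + t • uncoords w _ _ aα + t ^ 2 • (τ * α * φ)
          rw [inv_inv, hg0v, hg1v, ← k4]
          simp only [Matrix.add_mul, Matrix.mul_add, Matrix.one_mul, Matrix.mul_one,
            Matrix.smul_mul, Matrix.mul_smul, smul_add, smul_smul, sq]
          abel
        · show g2.val * β * ((g1⁻¹)⁻¹).val =
            β + t • uncoords w _ _ aβ + t ^ 2 • (ψ * β * φ)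
          rw [inv_inv, hg2v, hg1v, ← k3]
          simp only [Matrix.add_mul, Matrix.mul_add, Matrix.one_mul, Matrix.mul_one,
            Matrix.smul_mul, Matrix.mul_smul, smul_add, smul_smul, sq]
          abel
        · show g2.val * γ * ((g3⁻¹)⁻¹).val =
            γ + t • uncoords w _ _ aγ + t ^ 2 • (ψ * γ * σ)
          rw [inv_inv, hg2v, hg3v, ← k5]
          simp only [Matrix.add_mul, Matrix.mul_add, Matrix.one_mul, Matrix.mul_one,
            Matrix.smul_mul, Matrix.mul_smul, smul_add, smul_smul, sq]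
          abel
        · show ((g1⁻¹ : GL _ K) : Matrix _ _ K) * x0 * (((g1⁻¹)⁻¹ : GL _ K) : Matrix _ _ K) =
            x0 + t • uncoords w _ _ ax + t ^ 2 • (0 : Matrix _ _ K)
          rw [inv_inv, h1, Matrix.mul_assoc, ← ecomm1, ← Matrix.mul_assoc, ← Units.val_mul,
            inv_mul_cancel]
          simp
        · show (g2 : Matrix _ _ K) * y0 * ((g2⁻¹ : GL _ K) : Matrix _ _ K) =
            y0 + t • uncoords w _ _ ay + t ^ 2 • (0 : Matrix _ _ K)
          rw [h2, ecomm2, Matrix.mul_assoc, ← Units.val_mul, mul_inv_cancel]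
          simp
      rw [main]
      rfl
  · rintro _ ⟨N', hN', rfl⟩
    exact hp N' hN'
  · have e : ∀ (i j : Vtx) (a : i ⟶ j), uncoords (coords N - coords M₀) i j a =
      N i j a - M₀ i j a := fun _ _ _ => rfl
    refine ⟨?_, ?_, ?_, ?_, ?_⟩
    · rw [e, hNx]; exact sub_self _
    · rw [e, hNy]; exact sub_self _
    · rw [e, Matrix.sub_mul, Matrix.mul_sub, hNβ]
      congr 1
    · rw [e, Matrix.sub_mul, hNα, zero_sub, neg_eq_zero]; exact hα
    · rw [e, Matrix.mul_sub, hNγ, zero_sub, neg_eq_zero]; exact hγ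

theorem idA_isDO (K : Type u) [Field K] [Infinite K] : IsDO (idA K) := by
  intro d C hC
  classical
  -- the index set of strata
  let ι : Type := {t : Fin (d .v1 + 1) × Fin (d .v2 + 1) //
    2 * (t.1 : ℕ) ≤ d .v1 ∧ 2 * (t.2 : ℕ) ≤ d .v2}
  have hex := fun t : ι => exists_gen K (d .v0) (d .v1) (d .v2) (d .v3) t.1.1 t.1.2 t.2.1 t.2.2
  choose P Q R S iP iQ iR iS dQ dS hP hQ hR hS e1 e2 α β γ hβ hα hγ hT using hex
  refine dense_orbit_of_finite_cover (idA K) (ι := ι)
    (fun t => mkRep (α t) (β t) (γ t) ((stdX K (P t) (Q t)).submatrix (e1 t) (e1 t))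
      ((stdX K (R t) (S t)).submatrix (e2 t) (e2 t))) ?_ (fun t => isIrreducible_orbit _) ?_ C hC
  · intro t
    rw [mem_modA]
    refine ⟨?_, ?_, hα t, hγ t, hβ t⟩
    · show (stdX K (P t) (Q t)).submatrix (e1 t) (e1 t) *
        (stdX K (P t) (Q t)).submatrix (e1 t) (e1 t) = 0
      rw [Matrix.submatrix_mul_equiv, stdX_mul_self]
      simp
    · show (stdX K (R t) (S t)).submatrix (e2 t) (e2 t) *
        (stdX K (R t) (S t)).submatrix (e2 t) (e2 t) = 0
      rw [Matrix.submatrix_mul_equiv, stdX_mul_self]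
      simp
  · intro M hM
    rw [mem_modA] at hM
    obtain ⟨m1, m2, m3, m4, m5⟩ := hM
    obtain ⟨r1, hr1, H1⟩ := sq_zero_normal _ m1
    obtain ⟨r2, hr2, H2⟩ := sq_zero_normal _ m2
    let t : ι := ⟨(⟨r1, by omega⟩, ⟨r2, by omega⟩), hr1, hr2⟩
    obtain ⟨g1, hg1⟩ := H1 (P t) (Q t) (hP t) (hQ t) (e1 t)
    obtain ⟨g2, hg2⟩ := H2 (R t) (S t) (hR t) (hS t) (e2 t)
    refine ⟨t, ?_⟩
    set x0 := (stdX K (P t) (Q t)).submatrix (e1 t) (e1 t) with hx0
    set y0 := (stdX K (R t) (S t)).submatrix (e2 t) (e2 t) with hy0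
    set g : ∀ i : Vtx, GL (Fin (d i)) K := fun i => match i with
      | .v0 => 1
      | .v1 => g1⁻¹
      | .v2 => g2⁻¹
      | .v3 => 1 with hg
    have hgN : act (fun i => (g i)⁻¹) (act g M) = M := by
      rw [act_mul]
      simp only [inv_mul_cancel]
      exact act_one M
    rw [← hgN]
    apply act_mem_closure_orbit
    have hmem : act g M ∈ modVariety (idA K) d :=
      act_mem_modVariety _ g ((mem_modA M).2 ⟨m1, m2, m3, m4, m5⟩)
    rw [mem_modA] at hmem
    obtain ⟨n1, n2, n3, n4, n5⟩ := hmem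
    have hNx : act g M _ _ ax = x0 := by
      show ((g1⁻¹ : GL _ K) : Matrix _ _ K) * M _ _ ax * (((g1⁻¹)⁻¹ : GL _ K) : Matrix _ _ K) = x0
      rw [inv_inv, Matrix.mul_assoc, hg1, ← Matrix.mul_assoc, ← Units.val_mul, inv_mul_cancel,
        Units.val_one, Matrix.one_mul]
    have hNy : act g M _ _ ay = y0 := by
      show ((g2⁻¹ : GL _ K) : Matrix _ _ K) * M _ _ ay * (((g2⁻¹)⁻¹ : GL _ K) : Matrix _ _ K) = y0
      rw [inv_inv, Matrix.mul_assoc, hg2, ← Matrix.mul_assoc, ← Units.val_mul, inv_mul_cancel,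
        Units.val_one, Matrix.one_mul]
    rw [hNx] at n3 n5
    rw [hNy] at n4 n5
    exact stratum_dense x0 y0 (α t) (β t) (γ t) (hβ t) (hα t) (hγ t) (hT t) _ hNx hNy n5 n3 n4

end Pool.Agent.helper6.DOrb
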