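import Mathlib

/-! Block matrices with three block rows and columns. -/

namespace Pool.Agent.helper6.DOrb

universe u

variable {K : Type u} [Field K]
variable {I J I1 I2 I3 J1 J2 J3 L1 L2 L3 : Type}

/-- a matrix with three block rows and three block columns -/
def m33 (A11 : Matrix I1 J1 K) (A12 : Matrix I1 J2 K) (A13 : Matrix I1 J3 K)
    (A21 : Matrix I2 J1 K) (A22 : Matrix I2 J2 K) (A23 : Matrix I2 J3 K)
    (A31 : Matrix I3 J1 K) (A32 : Matrix I3 J2 K) (A33 : Matrix I3 J3 K) :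
    Matrix (I1 ⊕ (I2 ⊕ I3)) (J1 ⊕ (J2 ⊕ J3)) K :=
  fun i j => match i, j with
  | .inl i, .inl j => A11 i j
  | .inl i, .inr (.inl j) => A12 i j
  | .inl i, .inr (.inr j) => A13 i j
  | .inr (.inl i), .inl j => A21 i j
  | .inr (.inl i), .inr (.inl j) => A22 i j
  | .inr (.inl i), .inr (.inr j) => A23 i j
  | .inr (.inr i), .inl j => A31 i j
  | .inr (.inr i), .inr (.inl j) => A32 i j
  | .inr (.inr i), .inr (.inr j) => A33 i j

/-- a matrix with three block columns -/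
def m13 (A1 : Matrix I J1 K) (A2 : Matrix I J2 K) (A3 : Matrix I J3 K) :
    Matrix I (J1 ⊕ (J2 ⊕ J3)) K :=
  fun i j => match j with
  | .inl j => A1 i j
  | .inr (.inl j) => A2 i j
  | .inr (.inr j) => A3 i j

/-- a matrix with three block rows -/
def m31 (A1 : Matrix I1 J K) (A2 : Matrix I2 J K) (A3 : Matrix I3 J K) :
    Matrix (I1 ⊕ (I2 ⊕ I3)) J K :=
  fun i j => match i with
  | .inl i => A1 i j
  | .inr (.inl i) => A2 i j
  | .inr (.inr i) => A3 i j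

theorem m33_mul [Fintype J1] [Fintype J2] [Fintype J3]
    (A11 : Matrix I1 J1 K) (A12 : Matrix I1 J2 K) (A13 : Matrix I1 J3 K)
    (A21 : Matrix I2 J1 K) (A22 : Matrix I2 J2 K) (A23 : Matrix I2 J3 K)
    (A31 : Matrix I3 J1 K) (A32 : Matrix I3 J2 K) (A33 : Matrix I3 J3 K)
    (B11 : Matrix J1 L1 K) (B12 : Matrix J1 L2 K) (B13 : Matrix J1 L3 K)
    (B21 : Matrix J2 L1 K) (B22 : Matrix J2 L2 K) (B23 : Matrix J2 L3 K)
    (B31 : Matrix J3 L1 K) (B32 : Matrix J3 L2 K) (B33 : Matrix J3 L3 K) :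
    m33 A11 A12 A13 A21 A22 A23 A31 A32 A33 * m33 B11 B12 B13 B21 B22 B23 B31 B32 B33 =
      m33 (A11 * B11 + A12 * B21 + A13 * B31) (A11 * B12 + A12 * B22 + A13 * B32)
        (A11 * B13 + A12 * B23 + A13 * B33)
        (A21 * B11 + A22 * B21 + A23 * B31) (A21 * B12 + A22 * B22 + A23 * B32)
        (A21 * B13 + A22 * B23 + A23 * B33)
        (A31 * B11 + A32 * B21 + A33 * B31) (A31 * B12 + A32 * B22 + A33 * B32)
        (A31 * B13 + A32 * B23 + A33 * B33) := by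
  ext i j
  rcases i with i | i | i <;> rcases j with j | j | j <;>
    simp [Matrix.mul_apply, m33, Fintype.sum_sum_type, add_assoc]

theorem m33_add
    (A11 : Matrix I1 J1 K) (A12 : Matrix I1 J2 K) (A13 : Matrix I1 J3 K)
    (A21 : Matrix I2 J1 K) (A22 : Matrix I2 J2 K) (A23 : Matrix I2 J3 K)
    (A31 : Matrix I3 J1 K) (A32 : Matrix I3 J2 K) (A33 : Matrix I3 J3 K)
    (B11 : Matrix I1 J1 K) (B12 : Matrix I1 J2 K) (B13 : Matrix I1 J3 K)
    (B21 : Matrix I2 J1 K) (B22 : Matrix I2 J2 K) (B23 : Matrix I2 J3 K)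
    (B31 : Matrix I3 J1 K) (B32 : Matrix I3 J2 K) (B33 : Matrix I3 J3 K) :
    m33 A11 A12 A13 A21 A22 A23 A31 A32 A33 + m33 B11 B12 B13 B21 B22 B23 B31 B32 B33 =
      m33 (A11 + B11) (A12 + B12) (A13 + B13) (A21 + B21) (A22 + B22) (A23 + B23)
        (A31 + B31) (A32 + B32) (A33 + B33) := by
  ext i j
  rcases i with i | i | i <;> rcases j with j | j | j <;> simp [m33]

theorem m13_mul_m33 [Fintype J1] [Fintype J2] [Fintype J3]
    (A1 : Matrix I J1 K) (A2 : Matrix I J2 K) (A3 : Matrix I J3 K)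
    (B11 : Matrix J1 L1 K) (B12 : Matrix J1 L2 K) (B13 : Matrix J1 L3 K)
    (B21 : Matrix J2 L1 K) (B22 : Matrix J2 L2 K) (B23 : Matrix J2 L3 K)
    (B31 : Matrix J3 L1 K) (B32 : Matrix J3 L2 K) (B33 : Matrix J3 L3 K) :
    m13 A1 A2 A3 * m33 B11 B12 B13 B21 B22 B23 B31 B32 B33 =
      m13 (A1 * B11 + A2 * B21 + A3 * B31) (A1 * B12 + A2 * B22 + A3 * B32)
        (A1 * B13 + A2 * B23 + A3 * B33) := by
  ext i j
  rcases j with j | j | j <;>
    simp [Matrix.mul_apply, m33, m13, Fintype.sum_sum_type, add_assoc]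

theorem mul_m13 [Fintype J] (A : Matrix I J K)
    (B1 : Matrix J J1 K) (B2 : Matrix J J2 K) (B3 : Matrix J J3 K) :
    A * m13 B1 B2 B3 = m13 (A * B1) (A * B2) (A * B3) := by
  ext i j
  rcases j with j | j | j <;> simp [Matrix.mul_apply, m13]

theorem m13_add (A1 : Matrix I J1 K) (A2 : Matrix I J2 K) (A3 : Matrix I J3 K)
    (B1 : Matrix I J1 K) (B2 : Matrix I J2 K) (B3 : Matrix I J3 K) :
    m13 A1 A2 A3 + m13 B1 B2 B3 = m13 (A1 + B1) (A2 + B2) (A3 + B3) := by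
  ext i j
  rcases j with j | j | j <;> simp [m13]

theorem m33_mul_m31 [Fintype J1] [Fintype J2] [Fintype J3]
    (A11 : Matrix I1 J1 K) (A12 : Matrix I1 J2 K) (A13 : Matrix I1 J3 K)
    (A21 : Matrix I2 J1 K) (A22 : Matrix I2 J2 K) (A23 : Matrix I2 J3 K)
    (A31 : Matrix I3 J1 K) (A32 : Matrix I3 J2 K) (A33 : Matrix I3 J3 K)
    (B1 : Matrix J1 J K) (B2 : Matrix J2 J K) (B3 : Matrix J3 J K) :
    m33 A11 A12 A13 A21 A22 A23 A31 A32 A33 * m31 B1 B2 B3 =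
      m31 (A11 * B1 + A12 * B2 + A13 * B3) (A21 * B1 + A22 * B2 + A23 * B3)
        (A31 * B1 + A32 * B2 + A33 * B3) := by
  ext i j
  rcases i with i | i | i <;>
    simp [Matrix.mul_apply, m33, m31, Fintype.sum_sum_type, add_assoc]

theorem m31_mul [Fintype J] (A : Matrix J I K)
    (B1 : Matrix J1 J K) (B2 : Matrix J2 J K) (B3 : Matrix J3 J K) :
    m31 B1 B2 B3 * A = m31 (B1 * A) (B2 * A) (B3 * A) := by
  ext i j
  rcases i with i | i | i <;> simp [Matrix.mul_apply, m31]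

theorem m31_add (A1 : Matrix J1 I K) (A2 : Matrix J2 I K) (A3 : Matrix J3 I K)
    (B1 : Matrix J1 I K) (B2 : Matrix J2 I K) (B3 : Matrix J3 I K) :
    m31 A1 A2 A3 + m31 B1 B2 B3 = m31 (A1 + B1) (A2 + B2) (A3 + B3) := by
  ext i j
  rcases i with i | i | i <;> simp [m31]

theorem eq_m33 (A : Matrix (I1 ⊕ (I2 ⊕ I3)) (J1 ⊕ (J2 ⊕ J3)) K) :
    ∃ A11 A12 A13 A21 A22 A23 A31 A32 A33, A = m33 A11 A12 A13 A21 A22 A23 A31 A32 A33 := by
  refine ⟨fun i j => A (.inl i) (.inl j), fun i j => A (.inl i) (.inr (.inl j)),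
    fun i j => A (.inl i) (.inr (.inr j)), fun i j => A (.inr (.inl i)) (.inl j),
    fun i j => A (.inr (.inl i)) (.inr (.inl j)), fun i j => A (.inr (.inl i)) (.inr (.inr j)),
    fun i j => A (.inr (.inr i)) (.inl j),
    fun i j => A (.inr (.inr i)) (.inr (.inl j)), fun i j => A (.inr (.inr i)) (.inr (.inr j)), ?_⟩
  ext i j
  rcases i with i | i | i <;> rcases j with j | j | j <;> rfl

theorem eq_m13 (A : Matrix I (J1 ⊕ (J2 ⊕ J3)) K) : ∃ A1 A2 A3, A = m13 A1 A2 A3 := by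
  refine ⟨fun i j => A i (.inl j), fun i j => A i (.inr (.inl j)),
    fun i j => A i (.inr (.inr j)), ?_⟩
  ext i j
  rcases j with j | j | j <;> rfl

theorem eq_m31 (A : Matrix (J1 ⊕ (J2 ⊕ J3)) I K) : ∃ A1 A2 A3, A = m31 A1 A2 A3 := by
  refine ⟨fun i j => A (.inl i) j, fun i j => A (.inr (.inl i)) j,
    fun i j => A (.inr (.inr i)) j, ?_⟩
  ext i j
  rcases i with i | i | i <;> rfl

theorem m33_inj {A11 : Matrix I1 J1 K} {A12 : Matrix I1 J2 K} {A13 : Matrix I1 J3 K}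
    {A21 : Matrix I2 J1 K} {A22 : Matrix I2 J2 K} {A23 : Matrix I2 J3 K}
    {A31 : Matrix I3 J1 K} {A32 : Matrix I3 J2 K} {A33 : Matrix I3 J3 K}
    {B11 : Matrix I1 J1 K} {B12 : Matrix I1 J2 K} {B13 : Matrix I1 J3 K}
    {B21 : Matrix I2 J1 K} {B22 : Matrix I2 J2 K} {B23 : Matrix I2 J3 K}
    {B31 : Matrix I3 J1 K} {B32 : Matrix I3 J2 K} {B33 : Matrix I3 J3 K} :
    m33 A11 A12 A13 A21 A22 A23 A31 A32 A33 = m33 B11 B12 B13 B21 B22 B23 B31 B32 B33 ↔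
      (A11 = B11 ∧ A12 = B12 ∧ A13 = B13) ∧ (A21 = B21 ∧ A22 = B22 ∧ A23 = B23) ∧
        (A31 = B31 ∧ A32 = B32 ∧ A33 = B33) := by
  constructor
  · intro h
    have h' : ∀ i j, _ := fun i j => congrFun (congrFun h i) j
    refine ⟨⟨?_, ?_, ?_⟩, ⟨?_, ?_, ?_⟩, ⟨?_, ?_, ?_⟩⟩
    · ext i j; exact h' (.inl i) (.inl j)
    · ext i j; exact h' (.inl i) (.inr (.inl j))
    · ext i j; exact h' (.inl i) (.inr (.inr j))
    · ext i j; exact h' (.inr (.inl i)) (.inl j)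
    · ext i j; exact h' (.inr (.inl i)) (.inr (.inl j))
    · ext i j; exact h' (.inr (.inl i)) (.inr (.inr j))
    · ext i j; exact h' (.inr (.inr i)) (.inl j)
    · ext i j; exact h' (.inr (.inr i)) (.inr (.inl j))
    · ext i j; exact h' (.inr (.inr i)) (.inr (.inr j))
  · rintro ⟨⟨rfl, rfl, rfl⟩, ⟨rfl, rfl, rfl⟩, ⟨rfl, rfl, rfl⟩⟩
    rfl

theorem m13_inj {A1 B1 : Matrix I J1 K} {A2 B2 : Matrix I J2 K} {A3 B3 : Matrix I J3 K} :
    m13 A1 A2 A3 = m13 B1 B2 B3 ↔ A1 = B1 ∧ A2 = B2 ∧ A3 = B3 := by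
  constructor
  · intro h
    have h' : ∀ i j, _ := fun i j => congrFun (congrFun h i) j
    refine ⟨?_, ?_, ?_⟩
    · ext i j; exact h' i (.inl j)
    · ext i j; exact h' i (.inr (.inl j))
    · ext i j; exact h' i (.inr (.inr j))
  · rintro ⟨rfl, rfl, rfl⟩
    rfl

theorem m31_inj {A1 B1 : Matrix J1 I K} {A2 B2 : Matrix J2 I K} {A3 B3 : Matrix J3 I K} :
    m31 A1 A2 A3 = m31 B1 B2 B3 ↔ A1 = B1 ∧ A2 = B2 ∧ A3 = B3 := by
  constructor
  · intro h
    have h' : ∀ i j, _ := fun i j => congrFun (congrFun h i) j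
    refine ⟨?_, ?_, ?_⟩
    · ext i j; exact h' (.inl i) j
    · ext i j; exact h' (.inr (.inl i)) j
    · ext i j; exact h' (.inr (.inr i)) j
  · rintro ⟨rfl, rfl, rfl⟩
    rfl

theorem m33_zero : m33 (0 : Matrix I1 J1 K) (0 : Matrix I1 J2 K) (0 : Matrix I1 J3 K)
    (0 : Matrix I2 J1 K) (0 : Matrix I2 J2 K) (0 : Matrix I2 J3 K)
    (0 : Matrix I3 J1 K) (0 : Matrix I3 J2 K) (0 : Matrix I3 J3 K) = 0 := by
  ext i j
  rcases i with i | i | i <;> rcases j with j | j | j <;> rfl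

theorem m13_zero : m13 (0 : Matrix I J1 K) (0 : Matrix I J2 K) (0 : Matrix I J3 K) = 0 := by
  ext i j
  rcases j with j | j | j <;> rfl

theorem m31_zero : m31 (0 : Matrix J1 I K) (0 : Matrix J2 I K) (0 : Matrix J3 I K) = 0 := by
  ext i j
  rcases i with i | i | i <;> rfl

/-- the standard square zero matrix -/
def stdX (K : Type u) [Field K] (P Q : Type) [DecidableEq Q] :
    Matrix (P ⊕ (Q ⊕ Q)) (P ⊕ (Q ⊕ Q)) K :=
  m33 0 0 0 0 0 0 0 1 0

theorem stdX_mul_self (P Q : Type) [DecidableEq Q] [Fintype P] [Fintype Q] :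
    stdX K P Q * stdX K P Q = 0 := by
  rw [stdX, m33_mul, ← m33_zero]
  simp

end Pool.Agent.helper6.DOrb
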