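import Mathlib

/-!
# Bound quivers, module varieties and the dense orbit property

Definitions used in the statement of `Pool.Agent.Results.MP_4dd85c_al.QuotientNotDO.result`.
-/

open Quiver

namespace Pool.Agent.helper6.DOrb

universe u

/-- The Zariski topology on the affine space `σ → K`: the closed sets are the common zero sets of
sets of polynomials. -/
@[implicit_reducible]
def zariski (K : Type u) [Field K] (σ : Type) : TopologicalSpace (σ → K) :=
  TopologicalSpace.ofClosed
    {Z | ∃ I : Set (MvPolynomial σ K), Z = {x | ∀ p ∈ I, MvPolynomial.eval x p = 0}}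
    ⟨{1}, by ext x; simp⟩
    (by
      intro A hA
      refine ⟨{p | ∃ Z ∈ A, ∀ x ∈ Z, MvPolynomial.eval x p = 0}, ?_⟩
      ext x
      constructor
      · intro hx p hp
        obtain ⟨Z, hZ, hp⟩ := hp
        exact hp x (hx Z hZ)
      · intro hx Z hZ
        obtain ⟨I, rfl⟩ := hA hZ
        intro p hp
        exact hx p ⟨_, hZ, fun y hy => hy p hp⟩)
    (by
      rintro _ ⟨I, rfl⟩ _ ⟨J, rfl⟩
      refine ⟨{r | ∃ p ∈ I, ∃ q ∈ J, r = p * q}, ?_⟩
      ext x
      constructor
      · rintro (hx | hx) r ⟨p, hp, q, hq, rfl⟩
        · simp [hx p hp]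
        · simp [hx q hq]
      · intro hx
        by_contra hcon
        have h1 : ¬ ∀ p ∈ I, MvPolynomial.eval x p = 0 := fun h => hcon (Or.inl h)
        have h2 : ¬ ∀ q ∈ J, MvPolynomial.eval x q = 0 := fun h => hcon (Or.inr h)
        push Not at h1 h2
        obtain ⟨p, hp, hp0⟩ := h1
        obtain ⟨q, hq, hq0⟩ := h2
        have := hx (p * q) ⟨p, hp, q, hq, rfl⟩
        rw [map_mul] at this
        exact (mul_ne_zero hp0 hq0) this)

/-- A two-sided ideal `I` of the path algebra `KQ` of a quiver `Q` with vertex set `V`, given by its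
pieces `e_j I e_i`, which are spaces of linear combinations of paths from `i` to `j`. -/
structure PathIdeal (K : Type u) [Field K] (V : Type) [Quiver.{0} V] where
  /-- the piece `e_j I e_i` -/
  carrier : ∀ i j : V, Submodule K (Path i j →₀ K)
  /-- closure under multiplication by paths on both sides -/
  comp_mem : ∀ {i j k l : V} (p : Path i j) (f : Path j k →₀ K) (q : Path k l),
    f ∈ carrier j k → Finsupp.mapDomain (fun w => (p.comp w).comp q) f ∈ carrier i l

/-- The ideal `I` is admissible: `J ^ m ⊆ I ⊆ J ^ 2` for some `m`, where `J` is the ideal generated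
by the arrows, so that `J ^ m` is spanned by the paths of length at least `m`. -/
def PathIdeal.Admissible {K : Type u} [Field K] {V : Type} [Quiver.{0} V]
    (I : PathIdeal K V) : Prop :=
  (∀ i j : V, ∀ f ∈ I.carrier i j, ∀ p ∈ f.support, 2 ≤ p.length) ∧
  ∃ m : ℕ, ∀ (i j : V) (p : Path i j), m ≤ p.length → Finsupp.single p 1 ∈ I.carrier i j

/-- `I ≤ I'` for two-sided ideals of the path algebra: `I` is contained in `I'`. -/
def PathIdeal.Le {K : Type u} [Field K] {V : Type} [Quiver.{0} V]
    (I I' : PathIdeal K V) : Prop :=
  ∀ i j : V, I.carrier i j ≤ I'.carrier i j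

/-- Representations of the quiver with dimension vector `d`: a matrix for every arrow. -/
abbrev Rep (K : Type u) [Field K] (V : Type) [Quiver.{0} V] (d : V → ℕ) : Type u :=
  ∀ i j : V, (i ⟶ j) → Matrix (Fin (d j)) (Fin (d i)) K

/-- The index set of all matrix entries of a representation. -/
abbrev Coord (V : Type) [Quiver.{0} V] (d : V → ℕ) : Type :=
  Σ i j : V, (i ⟶ j) × Fin (d j) × Fin (d i)

/-- The matrix entries of a representation, as a point of affine space. -/
def coords {K : Type u} [Field K] {V : Type} [Quiver.{0} V] {d : V → ℕ} (M : Rep K V d) :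
    Coord V d → K :=
  fun c => M c.1 c.2.1 c.2.2.1 c.2.2.2.1 c.2.2.2.2

/-- The Zariski topology on the affine space of all representations of dimension vector `d`. -/
instance repTopology (K : Type u) [Field K] (V : Type) [Quiver.{0} V] (d : V → ℕ) :
    TopologicalSpace (Rep K V d) :=
  TopologicalSpace.induced coords (zariski K (Coord V d))

/-- The matrix by which a path acts on a representation. -/
def evalPath {K : Type u} [Field K] {V : Type} [Quiver.{0} V] {d : V → ℕ} (M : Rep K V d) {i : V} :
    ∀ {j : V}, Path i j → Matrix (Fin (d j)) (Fin (d i)) K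
  | _, .nil => 1
  | _, .cons p a => M _ _ a * evalPath M p

/-- The matrix by which a linear combination of paths acts on a representation. -/
def evalComb {K : Type u} [Field K] {V : Type} [Quiver.{0} V] {d : V → ℕ} (M : Rep K V d)
    {i j : V} (f : Path i j →₀ K) : Matrix (Fin (d j)) (Fin (d i)) K :=
  f.sum fun p c => c • evalPath M p

/-- The module variety `mod(KQ/I, d)`: the representations annihilated by `I`. -/
def modVariety {K : Type u} [Field K] {V : Type} [Quiver.{0} V] (I : PathIdeal K V) (d : V → ℕ) :
    Set (Rep K V d) :=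
  {M | ∀ i j : V, ∀ f ∈ I.carrier i j, evalComb M f = 0}

/-- The base change action of `GL(d)`. -/
def act {K : Type u} [Field K] {V : Type} [Quiver.{0} V] {d : V → ℕ}
    (g : ∀ i : V, GL (Fin (d i)) K) (M : Rep K V d) : Rep K V d :=
  fun i j a => (g j : Matrix (Fin (d j)) (Fin (d j)) K) * M i j a *
    (((g i)⁻¹ : GL (Fin (d i)) K) : Matrix (Fin (d i)) (Fin (d i)) K)

/-- The `GL(d)`-orbit of a representation, that is, its isomorphism class. -/
def orbit {K : Type u} [Field K] {V : Type} [Quiver.{0} V] {d : V → ℕ} (M : Rep K V d) :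
    Set (Rep K V d) :=
  {N | ∃ g : ∀ i : V, GL (Fin (d i)) K, N = act g M}

/-- `C` is an irreducible component of the subset `X` of a topological space. -/
def IsComponent {Y : Type u} [TopologicalSpace Y] (X C : Set Y) : Prop :=
  Maximal (fun s => IsIrreducible s ∧ s ⊆ X) C

/-- The algebra `KQ/I` has the dense orbit property: for every dimension vector `d`, every
irreducible component of `mod(KQ/I, d)` is the closure of the orbit of one of its points. -/
def IsDO {K : Type u} [Field K] {V : Type} [Quiver.{0} V] (I : PathIdeal K V) : Prop :=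
  ∀ (d : V → ℕ) (C : Set (Rep K V d)), IsComponent (modVariety I d) C →
    ∃ M₀ ∈ C, C = closure (orbit M₀)

end Pool.Agent.helper6.DOrb
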