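import Pool.Agent.helper6.DO.Tck

/-! Every dimension vector is a sum of pairwise compatible pieces. -/

namespace Pool.Agent.helper6.DOrb

/-- the exchange multiset of an incompatible pair -/
def gg (a b : ℕ) : List ℕ := (gT.getD a []).getD b []

/-- check the exchange relation for one pair -/
def chk6 (a b : ℕ) (G : List ℕ) : Bool :=
  G.all (fun g => Nat.blt g 32) &&
  (allTo 6 (fun t => Nat.beq ((G.map fun g => dm g t).sum) (dm a t + dm b t)) &&
  (allTo 32 (fun r => Nat.ble ((G.map fun g => ee g r + ee r g).sum)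
    (ee a r + ee r a + (ee b r + ee r b))) &&
  Nat.beq ((G.map fun g => (G.map fun h => ee g h).sum).sum) 0))

/-- check the exchange relations for all pairs -/
def chk7 : Bool :=
  allTo 32 (fun a => Nat.beq (ee a a) 0) &&
  allTo 32 (fun a => allTo 32 fun b =>
    !(Nat.blt a b && Nat.blt 0 (ee a b + ee b a)) || chk6 a b (gg a b))

set_option maxRecDepth 100000 in
theorem chk7_true : chk7 = true := by decide +kernel

theorem ee_self {a : ℕ} (ha : a < 32) : ee a a = 0 := by
  have h := chk7_true
  rw [chk7, Bool.and_eq_true] at h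
  exact Nat.eq_of_beq_eq_true (allTo_spec h.1 a ha)

theorem chk6_spec {a b : ℕ} (hb : b < 32) (hab : a < b) (he : 0 < ee a b + ee b a) :
    (∀ g ∈ gg a b, g < 32) ∧ (∀ t < 6, ((gg a b).map fun g => dm g t).sum = dm a t + dm b t) ∧
    (∀ r < 32, ((gg a b).map fun g => ee g r + ee r g).sum ≤
      ee a r + ee r a + (ee b r + ee r b)) ∧
    ((gg a b).map fun g => ((gg a b).map fun h => ee g h).sum).sum = 0 := by
  have h := chk7_true
  rw [chk7, Bool.and_eq_true] at h
  have h1 := allTo_spec (allTo_spec h.2 a (by omega)) b hb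
  have h2 : (Nat.blt a b && Nat.blt 0 (ee a b + ee b a)) = true := by
    rw [Bool.and_eq_true]
    exact ⟨Nat.ble_eq_true_of_le hab, Nat.ble_eq_true_of_le he⟩
  simp only [h2, Bool.not_true, Bool.false_or] at h1
  rw [chk6, Bool.and_eq_true, Bool.and_eq_true, Bool.and_eq_true, List.all_eq_true] at h1
  obtain ⟨h3, h4, h5, h6⟩ := h1
  refine ⟨fun g hg => Nat.le_of_ble_eq_true (h3 g hg), fun t ht =>
    Nat.eq_of_beq_eq_true (allTo_spec h4 t ht), fun r hr =>
    Nat.le_of_ble_eq_true (allTo_spec h5 r hr), Nat.eq_of_beq_eq_true h6⟩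

/-- the pairing of two multisets of pieces -/
def pr (s t : Multiset ℕ) : ℕ := (s.map fun a => (t.map fun b => ee a b).sum).sum

theorem pr_add_left (s s' t : Multiset ℕ) : pr (s + s') t = pr s t + pr s' t := by
  simp [pr]

theorem pr_add_right (s t t' : Multiset ℕ) : pr s (t + t') = pr s t + pr s t' := by
  simp [pr, Multiset.sum_map_add]

theorem pr_swap (s t : Multiset ℕ) :
    pr s t + pr t s = (t.map fun r => (s.map fun g => ee g r + ee r g).sum).sum := by
  have h1 : pr s t = (t.map fun r => (s.map fun g => ee g r).sum).sum := by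
    rw [pr, Multiset.sum_map_sum_map]
  rw [h1, pr, ← Multiset.sum_map_add]
  congr 1
  apply Multiset.map_congr rfl
  intro r _
  rw [Multiset.sum_map_add]

theorem pr_single (a b : ℕ) : pr {a} {b} = ee a b := by simp [pr]

/-- every vector is the sum of the vectors of a multiset of pairwise compatible pieces -/
theorem exists_ms (v : ℕ → ℕ) : ∃ s : Multiset ℕ, (∀ a ∈ s, a < 32) ∧
    (∀ t < 6, (s.map fun a => dm a t).sum = v t) ∧ ∀ a ∈ s, ∀ b ∈ s, ee a b = 0 := by
  classical
  have hne : ∃ n : ℕ, ∃ s : Multiset ℕ, (∀ a ∈ s, a < 32) ∧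
      (∀ t < 6, (s.map fun a => dm a t).sum = v t) ∧ pr s s = n := by
    refine ⟨_, Multiset.replicate (v 5) 0 + Multiset.replicate (v 4) 1 +
      Multiset.replicate (v 3) 2 + Multiset.replicate (v 2) 3 + Multiset.replicate (v 1) 4 +
      Multiset.replicate (v 0) 5, ?_, ?_, rfl⟩
    · intro a ha
      simp only [Multiset.mem_add, Multiset.mem_replicate] at ha
      omega
    · intro t ht
      simp only [Multiset.map_add, Multiset.sum_add, Multiset.map_replicate,
        Multiset.sum_replicate, smul_eq_mul]
      interval_cases t <;> simp [dm, dmT]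
  obtain ⟨s, hs32, hsv, hsn⟩ := Nat.find_spec hne
  refine ⟨s, hs32, hsv, ?_⟩
  have key : ∀ a ∈ s, ∀ b ∈ s, a < b → ee a b + ee b a = 0 := by
    intro a ha b hb hab
    by_contra hcon
    obtain ⟨h1, h2, h3, h4⟩ := chk6_spec (hs32 b hb) hab (Nat.pos_of_ne_zero hcon)
    obtain ⟨s', hs'⟩ := Multiset.exists_cons_of_mem ha
    have hb' : b ∈ s' := by
      rw [hs', Multiset.mem_cons] at hb
      rcases hb with hb | hb
      · omega
      · exact hb
    obtain ⟨r, hr⟩ := Multiset.exists_cons_of_mem hb'
    have hsr : s = {a} + {b} + r := by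
      rw [hs', hr, ← Multiset.singleton_add, ← Multiset.singleton_add, add_assoc]
    set G : Multiset ℕ := (gg a b : Multiset ℕ) with hG
    have hr32 : ∀ x ∈ r, x < 32 := fun x hx => hs32 x (by rw [hsr]; simp [hx])
    refine Nat.find_min hne (m := pr (G + r) (G + r)) ?_ ⟨G + r, ?_, ?_, rfl⟩
    · rw [← hsn, hsr]
      have e1 : pr G G = 0 := by
        rw [pr, hG]
        simpa using h4
      have e2 : pr ({a} + {b}) ({a} + {b}) = ee a b + ee b a := by
        rw [pr_add_left, pr_add_right, pr_add_right, pr_single, pr_single, pr_single, pr_single,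
          ee_self (hs32 a ha), ee_self (hs32 b hb)]
        omega
      have e3 : pr G r + pr r G ≤ pr ({a} + {b}) r + pr r ({a} + {b}) := by
        rw [pr_swap, pr_swap]
        apply Multiset.sum_map_le_sum_map
        intro x hx
        have := h3 x (hr32 x hx)
        simpa [hG] using this
      rw [pr_add_left, pr_add_right, pr_add_right, pr_add_left ({a} + {b}) r,
        pr_add_right ({a} + {b}), pr_add_right r, e1, e2]
      omega
    · intro x hx
      rw [Multiset.mem_add] at hx
      rcases hx with hx | hx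
      · exact h1 x (by simpa [hG] using hx)
      · exact hr32 x hx
    · intro t ht
      rw [← hsv t ht, hsr]
      have := h2 t ht
      simp only [Multiset.map_add, Multiset.sum_add, Multiset.map_singleton,
        Multiset.sum_singleton, hG]
      rw [← this]
      simp
  intro a ha b hb
  rcases lt_trichotomy a b with h | h | h
  · have := key a ha b hb h; omega
  · subst h; exact ee_self (hs32 a ha)
  · have := key b hb a ha h; omega

end Pool.Agent.helper6.DOrb
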