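import Pool.Agent.helper6.DO.Zar

/-! Generated path ideals, powers of the arrow ideal. -/

open Quiver

namespace Pool.Agent.helper6.DOrb

universe u

variable {K : Type u} [Field K] {V : Type} [Quiver.{0} V] {d : V → ℕ}

theorem evalPath_comp (M : Rep K V d) {i j k : V} (p : Path i j) (q : Path j k) :
    evalPath M (p.comp q) = evalPath M q * evalPath M p := by
  induction q with
  | nil => rw [Path.comp_nil, evalPath, Matrix.one_mul]
  | cons q a ih => rw [Path.comp_cons, evalPath, evalPath, ih, Matrix.mul_assoc]

theorem evalComb_eq (M : Rep K V d) {i j : V} (f : Path i j →₀ K) :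
    evalComb M f = Finsupp.linearCombination K (fun p => evalPath M p) f := rfl

theorem evalComb_single (M : Rep K V d) {i j : V} (p : Path i j) (c : K) :
    evalComb M (Finsupp.single p c) = c • evalPath M p := by
  rw [evalComb_eq, Finsupp.linearCombination_single]

theorem evalComb_mapDomain (M : Rep K V d) {i j k l : V} (p : Path i j) (f : Path j k →₀ K)
    (q : Path k l) :
    evalComb M (Finsupp.mapDomain (fun w => (p.comp w).comp q) f) =
      evalPath M q * evalComb M f * evalPath M p := by
  rw [evalComb_eq, Finsupp.linearCombination_mapDomain, evalComb, Finsupp.linearCombination_apply,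
    Finsupp.sum, Finsupp.sum, Matrix.mul_sum, Matrix.sum_mul]
  refine Finset.sum_congr rfl fun w _ => ?_
  simp only [Function.comp_apply]
  rw [evalPath_comp, evalPath_comp, Matrix.mul_smul, Matrix.smul_mul, Matrix.mul_assoc]

/-- the path ideal generated by a set of linear combinations of paths -/
noncomputable def PathIdeal.gen (S : ∀ i j : V, Set (Path i j →₀ K)) : PathIdeal K V where
  carrier i l := Submodule.span K {f | ∃ (j k : V) (p : Path i j) (g : Path j k →₀ K)
    (q : Path k l), g ∈ S j k ∧ f = Finsupp.mapDomain (fun w => (p.comp w).comp q) g}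
  comp_mem := by
    intro i j k l p f q hf
    induction hf using Submodule.span_induction with
    | mem f hf =>
      obtain ⟨j', k', p', g, q', hg, rfl⟩ := hf
      refine Submodule.subset_span ⟨j', k', p.comp p', g, q'.comp q, hg, ?_⟩
      rw [← Finsupp.mapDomain_comp]
      congr 1
      funext w
      simp [Path.comp_assoc]
    | zero => rw [Finsupp.mapDomain_zero]; exact Submodule.zero_mem _
    | add f g _ _ hf hg => rw [Finsupp.mapDomain_add]; exact Submodule.add_mem _ hf hg
    | smul c f _ hf => rw [Finsupp.mapDomain_smul]; exact Submodule.smul_mem _ c hf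

theorem PathIdeal.subset_gen (S : ∀ i j : V, Set (Path i j →₀ K)) {i j : V} {f : Path i j →₀ K}
    (hf : f ∈ S i j) : f ∈ (PathIdeal.gen S).carrier i j := by
  refine Submodule.subset_span ⟨i, j, .nil, f, .nil, hf, ?_⟩
  have : (fun w : Path i j => (Path.nil.comp w).comp Path.nil) = id := by
    funext w; simp
  rw [this, Finsupp.mapDomain_id]

theorem PathIdeal.gen_le (S : ∀ i j : V, Set (Path i j →₀ K)) (I : PathIdeal K V)
    (h : ∀ i j, ∀ f ∈ S i j, f ∈ I.carrier i j) : (PathIdeal.gen S).Le I := by
  intro i l f hf
  induction hf using Submodule.span_induction with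
  | mem f hf =>
    obtain ⟨j, k, p, g, q, hg, rfl⟩ := hf
    exact I.comp_mem p g q (h _ _ g hg)
  | zero => exact Submodule.zero_mem _
  | add f g _ _ hf hg => exact Submodule.add_mem _ hf hg
  | smul c f _ hf => exact Submodule.smul_mem _ c hf

theorem mem_modVariety_gen (S : ∀ i j : V, Set (Path i j →₀ K)) (M : Rep K V d) :
    M ∈ modVariety (PathIdeal.gen S) d ↔ ∀ i j, ∀ f ∈ S i j, evalComb M f = 0 := by
  constructor
  · intro h i j f hf
    exact h i j f (PathIdeal.subset_gen S hf)
  · intro h i l f hf
    induction hf using Submodule.span_induction with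
    | mem f hf =>
      obtain ⟨j, k, p, g, q, hg, rfl⟩ := hf
      rw [evalComb_mapDomain, h _ _ g hg]
      simp
    | zero => rw [evalComb_eq, map_zero]
    | add f g _ _ hf hg =>
      rw [evalComb_eq] at hf hg ⊢
      rw [map_add, hf, hg, add_zero]
    | smul c f _ hf =>
      rw [evalComb_eq] at hf ⊢
      rw [map_smul, hf, smul_zero]

theorem PathIdeal.single_mem_of_tail (I : PathIdeal K V) {i j k : V} (p : Path i j)
    (q : Path j k) (h : Finsupp.single q 1 ∈ I.carrier j k) :
    Finsupp.single (p.comp q) 1 ∈ I.carrier i k := by
  have := I.comp_mem p _ (Path.nil : Path k k) h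
  rw [Finsupp.mapDomain_single] at this
  simpa using this

theorem PathIdeal.single_mem_of_head (I : PathIdeal K V) {i j k : V} (p : Path i j)
    (q : Path j k) (h : Finsupp.single p 1 ∈ I.carrier i j) :
    Finsupp.single (p.comp q) 1 ∈ I.carrier i k := by
  have := I.comp_mem (Path.nil : Path i i) _ q h
  rw [Finsupp.mapDomain_single] at this
  simpa using this

/-- the power `J ^ n` of the arrow ideal -/
noncomputable def PathIdeal.long (K : Type u) [Field K] (V : Type) [Quiver.{0} V] (n : ℕ) : PathIdeal K V where
  carrier i j :=
    { carrier := {f | ∀ p ∈ f.support, n ≤ p.length}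
      add_mem' := by
        classical
        intro f g hf hg p hp
        rcases Finset.mem_union.1 (Finsupp.support_add hp) with h | h
        · exact hf p h
        · exact hg p h
      zero_mem' := by intro p hp; simp at hp
      smul_mem' := by
        intro c f hf p hp
        exact hf p (Finsupp.support_smul hp) }
  comp_mem := by
    classical
    intro i j k l p f q hf w hw
    obtain ⟨w', hw', rfl⟩ := Finset.mem_image.1 (Finsupp.mapDomain_support hw)
    have := hf w' hw'
    rw [Path.length_comp, Path.length_comp]
    omega

theorem PathIdeal.mem_long {n : ℕ} {i j : V} {f : Path i j →₀ K} :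
    f ∈ (PathIdeal.long K V n).carrier i j ↔ ∀ p ∈ f.support, n ≤ p.length := Iff.rfl

theorem PathIdeal.single_mem_long {n : ℕ} {i j : V} {p : Path i j} {c : K} (h : n ≤ p.length) :
    Finsupp.single p c ∈ (PathIdeal.long K V n).carrier i j := by
  classical
  intro q hq
  have := Finset.mem_singleton.1 (Finsupp.support_single_subset hq)
  subst this
  exact h

theorem PathIdeal.long_two_admissible : (PathIdeal.long K V 2).Admissible :=
  ⟨fun _ _ _ hf p hp => hf p hp, 2, fun _ _ _ hp => PathIdeal.single_mem_long hp⟩

end Pool.Agent.helper6.DOrb
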