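import Pool.Agent.helper6.DO.Zar

/-! Irreducibility of sets of the form `GL(d) · L` with `L` an affine subspace. -/

open Quiver MvPolynomial

namespace Pool.Agent.helper6.DOrb

universe u

variable {K : Type u} [Field K] {V : Type} [Quiver.{0} V] {d : V → ℕ}

/-- the saturation of a set of representations under isomorphism -/
def saturate (L : Set (Rep K V d)) : Set (Rep K V d) :=
  {M | ∃ g : ∀ i : V, GL (Fin (d i)) K, ∃ h ∈ L, M = act g h}

theorem saturate_singleton (M : Rep K V d) : saturate {M} = orbit M := by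
  ext N
  constructor
  · rintro ⟨g, h, rfl, rfl⟩; exact ⟨g, rfl⟩
  · rintro ⟨g, rfl⟩; exact ⟨g, M, rfl, rfl⟩

/-- a matrix of polynomials, the line through two matrices -/
noncomputable def lineMat {m n : Type*} (A B : Matrix m n K) : Matrix m n (Polynomial K) :=
  fun i j => Polynomial.C (A i j) + Polynomial.X * Polynomial.C (B i j - A i j)

theorem lineMat_eval {m n : Type*} (A B : Matrix m n K) (t : K) :
    (lineMat A B).map (Polynomial.eval t) = A + t • (B - A) := by
  ext i j
  simp [lineMat]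

theorem lineMat_eval' {m n : Type*} (A B : Matrix m n K) (t : K) :
    (lineMat A B).map (Polynomial.evalRingHom t) = A + t • (B - A) := by
  ext i j
  simp [lineMat]

theorem eval_det_lineMat {m : Type*} [Fintype m] [DecidableEq m] (A B : Matrix m m K) (t : K) :
    Polynomial.eval t (lineMat A B).det = (A + t • (B - A)).det := by
  rw [← Polynomial.coe_evalRingHom, RingHom.map_det, RingHom.mapMatrix_apply, lineMat_eval']

theorem eval_adj_lineMat {m : Type*} [Fintype m] [DecidableEq m] (A B : Matrix m m K) (t : K) :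
    (lineMat A B).adjugate.map (Polynomial.evalRingHom t) = (A + t • (B - A)).adjugate := by
  have := RingHom.map_adjugate (Polynomial.evalRingHom t) (lineMat A B)
  rw [RingHom.mapMatrix_apply, RingHom.mapMatrix_apply, lineMat_eval'] at this
  exact this

theorem isIrreducible_saturate [Fintype V] [Infinite K] (L : Set (Rep K V d)) (hne : L.Nonempty)
    (hL : ∀ h₁ ∈ L, ∀ h₂ ∈ L, ∀ t : K, (fun i j a => h₁ i j a + t • (h₂ i j a - h₁ i j a)) ∈ L) :
    IsIrreducible (saturate L) := by
  classical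
  refine ⟨?_, ?_⟩
  · obtain ⟨h, hh⟩ := hne
    exact ⟨h, fun _ => 1, h, hh, (act_one h).symm⟩
  rw [isPreirreducible_iff_isClosed_union_isClosed]
  intro z₁ z₂ hz₁ hz₂ hcov
  by_contra hcon
  push Not at hcon
  obtain ⟨hn1, hn2⟩ := hcon
  rw [Set.not_subset] at hn1 hn2
  obtain ⟨_, ⟨g₁, h₁, hh₁, rfl⟩, hu1⟩ := hn1
  obtain ⟨_, ⟨g₂, h₂, hh₂, rfl⟩, hu2⟩ := hn2
  obtain ⟨I₁, rfl⟩ := (isClosed_rep_iff _).1 hz₁
  obtain ⟨I₂, rfl⟩ := (isClosed_rep_iff _).1 hz₂
  have hu1' : ∃ p ∈ I₁, eval (coords (act g₁ h₁)) p ≠ 0 := by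
    by_contra hc; push Not at hc; exact hu1 hc
  have hu2' : ∃ p ∈ I₂, eval (coords (act g₂ h₂)) p ≠ 0 := by
    by_contra hc; push Not at hc; exact hu2 hc
  obtain ⟨p₁, hp₁, hp1⟩ := hu1'
  obtain ⟨p₂, hp₂, hp2⟩ := hu2'
  set G : ∀ i : V, Matrix (Fin (d i)) (Fin (d i)) (Polynomial K) :=
    fun i => lineMat (g₁ i : Matrix _ _ K) (g₂ i : Matrix _ _ K) with hG
  set D : Polynomial K := ∏ i, (G i).det with hD
  -- the point at parameter `t`
  set gt : K → ∀ i : V, Matrix (Fin (d i)) (Fin (d i)) K :=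
    fun t i => (g₁ i : Matrix _ _ K) + t • ((g₂ i : Matrix _ _ K) - (g₁ i : Matrix _ _ K)) with hgt
  set ht : K → Rep K V d := fun t i j a => h₁ i j a + t • (h₂ i j a - h₁ i j a) with hht
  set U : K → Rep K V d := fun t i j a => gt t j * ht t i j a * (gt t i)⁻¹ with hU
  have hDt : ∀ t, Polynomial.eval t D = ∏ i, (gt t i).det := by
    intro t
    rw [hD, Polynomial.eval_prod]
    exact Finset.prod_congr rfl fun i _ => eval_det_lineMat _ _ _
  have hUS : ∀ t, Polynomial.eval t D ≠ 0 → U t ∈ saturate L := by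
    intro t htD
    rw [hDt, Finset.prod_ne_zero_iff] at htD
    have hu : ∀ i, IsUnit (gt t i).det := fun i => isUnit_iff_ne_zero.2 (htD i (Finset.mem_univ i))
    refine ⟨fun i => (gt t i).nonsingInvUnit (hu i), ht t, hL _ hh₁ _ hh₂ t, ?_⟩
    funext i j a
    rfl
  -- rationality of the coordinates
  have hcoord : ∀ c : Coord V d, ∃ P : Polynomial K, ∀ t, Polynomial.eval t D ≠ 0 →
      Polynomial.eval t P = Polynomial.eval t D * coords (U t) c := by
    rintro ⟨i, j, a, r, s⟩
    refine ⟨(G j * lineMat (h₁ i j a) (h₂ i j a) * (G i).adjugate) r s *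
      ∏ k ∈ Finset.univ.erase i, (G k).det, ?_⟩
    intro t htD
    have htD' := htD
    rw [hDt, Finset.prod_ne_zero_iff] at htD'
    have hdet := htD' i (Finset.mem_univ i)
    have e1 : Polynomial.eval t ((G j * lineMat (h₁ i j a) (h₂ i j a) * (G i).adjugate) r s) =
        (gt t j * ht t i j a * (gt t i).adjugate) r s := by
      have h0 : ((G j * lineMat (h₁ i j a) (h₂ i j a) * (G i).adjugate).map
          (Polynomial.evalRingHom t)) = gt t j * ht t i j a * (gt t i).adjugate := by
        rw [Matrix.map_mul, Matrix.map_mul, eval_adj_lineMat, hG, lineMat_eval', lineMat_eval']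
      exact congrFun (congrFun h0 r) s
    rw [Polynomial.eval_mul, e1, Polynomial.eval_prod]
    have e2 : ∏ k ∈ Finset.univ.erase i, Polynomial.eval t (G k).det =
        ∏ k ∈ Finset.univ.erase i, (gt t k).det :=
      Finset.prod_congr rfl fun k _ => eval_det_lineMat _ _ _
    rw [e2, hDt, ← Finset.mul_prod_erase Finset.univ _ (Finset.mem_univ i)]
    have e3 : coords (U t) ⟨i, j, a, r, s⟩ = ((gt t i).det)⁻¹ *
        (gt t j * ht t i j a * (gt t i).adjugate) r s := by
      simp only [coords, hU]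
      rw [Matrix.inv_def, Ring.inverse_eq_inv', Matrix.mul_smul, Matrix.smul_apply, smul_eq_mul]
    rw [e3]
    field_simp
  choose Pc hPc using hcoord
  have hrat : ∀ p : MvPolynomial (Coord V d) K, ∃ (N : ℕ) (P : Polynomial K), ∀ t,
      Polynomial.eval t D ≠ 0 → Polynomial.eval t P =
        (Polynomial.eval t D) ^ N * eval (coords (U t)) p := by
    intro p
    induction p using MvPolynomial.induction_on with
    | C c => exact ⟨0, Polynomial.C c, fun t _ => by simp⟩
    | add p q hp hq =>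
      obtain ⟨N, P, hP⟩ := hp
      obtain ⟨N', Q, hQ⟩ := hq
      refine ⟨N + N', P * D ^ N' + Q * D ^ N, fun t ht => ?_⟩
      simp only [Polynomial.eval_add, Polynomial.eval_mul, Polynomial.eval_pow, hP t ht, hQ t ht,
        map_add]
      ring
    | mul_X p c hp =>
      obtain ⟨N, P, hP⟩ := hp
      refine ⟨N + 1, P * Pc c, fun t ht => ?_⟩
      simp only [Polynomial.eval_mul, hP t ht, hPc c t ht, map_mul, eval_X]
      ring
  obtain ⟨N₁, P₁, hP₁⟩ := hrat p₁
  obtain ⟨N₂, P₂, hP₂⟩ := hrat p₂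
  have hzero : ∀ t, Polynomial.eval t (P₁ * P₂ * D) = 0 := by
    intro t
    by_cases htD : Polynomial.eval t D = 0
    · simp [htD]
    · have hm := hcov (hUS t htD)
      simp only [Polynomial.eval_mul, hP₁ t htD, hP₂ t htD]
      rcases hm with hm | hm
      · rw [hm p₁ hp₁]; ring
      · rw [hm p₂ hp₂]; ring
  have hz : P₁ * P₂ * D = 0 := Polynomial.funext fun t => by rw [hzero t, Polynomial.eval_zero]
  have hD0 : Polynomial.eval 0 D ≠ 0 := by
    rw [hDt, Finset.prod_ne_zero_iff]
    intro i _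
    simp only [hgt, zero_smul, add_zero]
    exact ((Matrix.isUnit_iff_isUnit_det _).1 (g₁ i).isUnit).ne_zero
  have hD1 : Polynomial.eval 1 D ≠ 0 := by
    rw [hDt, Finset.prod_ne_zero_iff]
    intro i _
    simp only [hgt, one_smul, add_sub_cancel]
    exact ((Matrix.isUnit_iff_isUnit_det _).1 (g₂ i).isUnit).ne_zero
  have hU0 : U 0 = act g₁ h₁ := by
    funext i j a
    simp only [hU, hgt, hht, act, zero_smul, add_zero, Matrix.coe_units_inv]
  have hU1 : U 1 = act g₂ h₂ := by
    funext i j a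
    simp only [hU, hgt, hht, act, one_smul, add_sub_cancel, Matrix.coe_units_inv]
  rcases mul_eq_zero.1 hz with hz | hz
  · rcases mul_eq_zero.1 hz with hz | hz
    · have := hP₁ 0 hD0
      rw [hz, hU0, Polynomial.eval_zero] at this
      exact (mul_ne_zero (pow_ne_zero _ hD0) hp1) this.symm
    · have := hP₂ 1 hD1
      rw [hz, hU1, Polynomial.eval_zero] at this
      exact (mul_ne_zero (pow_ne_zero _ hD1) hp2) this.symm
  · rw [hz, Polynomial.eval_zero] at hD0
    exact hD0 rfl

theorem isIrreducible_orbit [Fintype V] [Infinite K] (M : Rep K V d) : IsIrreducible (orbit M) := by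
  rw [← saturate_singleton]
  apply isIrreducible_saturate
  · exact ⟨M, rfl⟩
  · rintro _ rfl _ rfl t
    simp

end Pool.Agent.helper6.DOrb
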