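import Pool.Agent.helper6.DO.Ideals

/-! The quiver of the counterexample and its two ideals. -/

open Quiver

namespace Pool.Agent.helper6.DOrb

universe u

/-- the four vertices -/
inductive Vtx : Type
  | v0 | v1 | v2 | v3
  deriving DecidableEq

instance instFintypeVtx : Fintype Vtx :=
  ⟨{.v0, .v1, .v2, .v3}, by intro i; cases i <;> simp⟩

/-- the five arrows -/
inductive Arr : Vtx → Vtx → Type
  | al : Arr .v1 .v0
  | be : Arr .v1 .v2
  | ga : Arr .v3 .v2
  | x : Arr .v1 .v1
  | y : Arr .v2 .v2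

instance instQuiverVtx : Quiver.{0} Vtx := ⟨Arr⟩

instance instSubsingletonArr (i j : Vtx) : Subsingleton (i ⟶ j) := by
  constructor
  intro a b
  change Arr i j at a b
  cases a <;> cases b <;> rfl

/-- the arrow `α` -/
abbrev aα : (Vtx.v1 ⟶ Vtx.v0) := Arr.al
/-- the arrow `β` -/
abbrev aβ : (Vtx.v1 ⟶ Vtx.v2) := Arr.be
/-- the arrow `γ` -/
abbrev aγ : (Vtx.v3 ⟶ Vtx.v2) := Arr.ga
/-- the loop `x` -/
abbrev ax : (Vtx.v1 ⟶ Vtx.v1) := Arr.x
/-- the loop `y` -/
abbrev ay : (Vtx.v2 ⟶ Vtx.v2) := Arr.y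

/-- the path `a` followed by `b` -/
abbrev two {i j k : Vtx} (a : i ⟶ j) (b : j ⟶ k) : Path i k := (Path.nil.cons a).cons b

variable {K : Type u} [Field K]

/-- the relations of the first algebra -/
noncomputable def relA (K : Type u) [Field K] : ∀ i j : Vtx, Set (Path i j →₀ K)
  | .v1, .v1 => {Finsupp.single (two ax ax) 1}
  | .v2, .v2 => {Finsupp.single (two ay ay) 1}
  | .v1, .v0 => {Finsupp.single (two ax aα) 1}
  | .v3, .v2 => {Finsupp.single (two aγ ay) 1}
  | .v1, .v2 => {Finsupp.single (two ax aβ) 1 - Finsupp.single (two aβ ay) 1}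
  | _, _ => ∅

/-- the ideal of the first algebra -/
noncomputable def idA (K : Type u) [Field K] : PathIdeal K Vtx := PathIdeal.gen (relA K)

/-- the ideal of the second algebra -/
noncomputable def idB (K : Type u) [Field K] : PathIdeal K Vtx := PathIdeal.long K Vtx 2

theorem idA_le_idB : (idA K).Le (idB K) := by
  apply PathIdeal.gen_le
  intro i j f hf
  cases i <;> cases j <;> simp only [relA, Set.mem_singleton_iff, Set.mem_empty_iff_false] at hf
  all_goals
    subst hf
    first
      | exact PathIdeal.single_mem_long (le_refl 2)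
      | exact Submodule.sub_mem _ (PathIdeal.single_mem_long (le_refl 2))
          (PathIdeal.single_mem_long (le_refl 2))

theorem idB_admissible : (idB K).Admissible := PathIdeal.long_two_admissible

theorem mem_xx : Finsupp.single (two ax ax) 1 ∈ (idA K).carrier _ _ :=
  PathIdeal.subset_gen _ (by simp [relA])

theorem mem_yy : Finsupp.single (two ay ay) 1 ∈ (idA K).carrier _ _ :=
  PathIdeal.subset_gen _ (by simp [relA])

theorem mem_xa : Finsupp.single (two ax aα) 1 ∈ (idA K).carrier _ _ :=
  PathIdeal.subset_gen _ (by simp [relA])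

theorem mem_gy : Finsupp.single (two aγ ay) 1 ∈ (idA K).carrier _ _ :=
  PathIdeal.subset_gen _ (by simp [relA])

theorem mem_xb : Finsupp.single (two ax aβ) 1 - Finsupp.single (two aβ ay) 1 ∈
    (idA K).carrier _ _ :=
  PathIdeal.subset_gen _ (by simp [relA])

theorem mem_byy : Finsupp.single ((two aβ ay).cons ay) 1 ∈ (idA K).carrier _ _ :=
  PathIdeal.single_mem_of_tail _ (Path.nil.cons aβ) (two ay ay) mem_yy

theorem mem_xby : Finsupp.single ((two ax aβ).cons ay) 1 ∈ (idA K).carrier _ _ := by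
  have h := (idA K).comp_mem (Path.nil : Path Vtx.v1 Vtx.v1) _ (Path.nil.cons ay) (mem_xb (K := K))
  rw [sub_eq_add_neg, Finsupp.mapDomain_add, ← Finsupp.single_neg, Finsupp.mapDomain_single,
    Finsupp.mapDomain_single] at h
  have h2 := Submodule.add_mem _ h (mem_byy (K := K))
  rw [add_assoc] at h2
  have e : (Finsupp.single (((Path.nil : Path Vtx.v1 Vtx.v1).comp (two aβ ay)).comp
      (Path.nil.cons ay)) (-1 : K)) + Finsupp.single ((two aβ ay).cons ay) 1 = 0 := by
    have : (((Path.nil : Path Vtx.v1 Vtx.v1).comp (two aβ ay)).comp (Path.nil.cons ay)) =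
      (two aβ ay).cons ay := rfl
    rw [this, ← Finsupp.single_add]
    simp
  rw [e, add_zero] at h2
  exact h2

theorem single_cons_mem (I : PathIdeal K Vtx) {i j k : Vtx} (p : Path i j) (c : j ⟶ k)
    (h : Finsupp.single p 1 ∈ I.carrier i j) : Finsupp.single (p.cons c) 1 ∈ I.carrier i k :=
  PathIdeal.single_mem_of_head I p (Path.nil.cons c) h

theorem mem_three {i j k l : Vtx} (a : i ⟶ j) (b : j ⟶ k) (c : k ⟶ l) :
    Finsupp.single ((two a b).cons c) 1 ∈ (idA K).carrier i l := by
  change Arr i j at a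
  change Arr j k at b
  change Arr k l at c
  cases a <;> cases b <;> cases c
  · exact mem_byy
  · exact single_cons_mem _ _ _ mem_gy
  · exact mem_xby
  · exact single_cons_mem _ _ _ mem_xx
  · exact single_cons_mem _ _ _ mem_xx
  · exact single_cons_mem _ _ _ mem_xx
  · exact single_cons_mem _ _ _ mem_yy

theorem idA_admissible : (idA K).Admissible := by
  refine ⟨fun i j f hf p hp => idA_le_idB i j hf p hp, 3, ?_⟩
  intro i j p hp
  induction p with
  | nil => simp at hp
  | @cons k l p c ih =>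
    rcases Nat.lt_or_ge p.length 3 with h | h
    · rw [Path.length_cons] at hp
      rcases p with _ | ⟨p, b⟩
      · simp at hp
      · rcases p with _ | ⟨p, a⟩
        · simp at hp
        · exact PathIdeal.single_mem_of_tail _ p ((two a b).cons c) (mem_three a b c)
    · exact PathIdeal.single_mem_of_head _ p (Path.nil.cons c) (ih h)

section
variable {d : Vtx → ℕ}

/-- the representation given by five matrices -/
def mkRep (α : Matrix (Fin (d .v0)) (Fin (d .v1)) K) (β : Matrix (Fin (d .v2)) (Fin (d .v1)) K)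
    (γ : Matrix (Fin (d .v2)) (Fin (d .v3)) K) (x : Matrix (Fin (d .v1)) (Fin (d .v1)) K)
    (y : Matrix (Fin (d .v2)) (Fin (d .v2)) K) : Rep K Vtx d
  | _, _, .al => α
  | _, _, .be => β
  | _, _, .ga => γ
  | _, _, .x => x
  | _, _, .y => y

theorem rep_ext {M N : Rep K Vtx d} (h1 : M _ _ aα = N _ _ aα) (h2 : M _ _ aβ = N _ _ aβ)
    (h3 : M _ _ aγ = N _ _ aγ) (h4 : M _ _ ax = N _ _ ax) (h5 : M _ _ ay = N _ _ ay) : M = N := by
  funext i j a
  change Arr i j at a
  cases a
  · exact h1
  · exact h2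
  · exact h3
  · exact h4
  · exact h5

theorem evalComb_two (M : Rep K Vtx d) {i j k : Vtx} (a : i ⟶ j) (b : j ⟶ k) :
    evalComb M (Finsupp.single (two a b) 1) = M _ _ b * M _ _ a := by
  rw [evalComb_single, one_smul, evalPath, evalPath, evalPath, Matrix.mul_one]

theorem mem_modA (M : Rep K Vtx d) : M ∈ modVariety (idA K) d ↔
    (M _ _ ax * M _ _ ax = 0 ∧ M _ _ ay * M _ _ ay = 0 ∧ M _ _ aα * M _ _ ax = 0 ∧
      M _ _ ay * M _ _ aγ = 0 ∧ M _ _ aβ * M _ _ ax = M _ _ ay * M _ _ aβ) := by
  rw [idA, mem_modVariety_gen]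
  constructor
  · intro h
    refine ⟨?_, ?_, ?_, ?_, ?_⟩
    · rw [← evalComb_two]; exact h _ _ _ (by simp [relA])
    · rw [← evalComb_two]; exact h _ _ _ (by simp [relA])
    · rw [← evalComb_two]; exact h _ _ _ (by simp [relA])
    · rw [← evalComb_two]; exact h _ _ _ (by simp [relA])
    · have := h .v1 .v2 (Finsupp.single (two ax aβ) 1 - Finsupp.single (two aβ ay) 1)
        (by simp [relA])
      rw [evalComb_eq, map_sub, ← evalComb_eq, ← evalComb_eq, evalComb_two, evalComb_two,
        sub_eq_zero] at this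
      exact this
  · rintro ⟨h1, h2, h3, h4, h5⟩ i j f hf
    cases i <;> cases j <;> simp only [relA, Set.mem_singleton_iff, Set.mem_empty_iff_false] at hf
    all_goals subst hf
    · rw [evalComb_two]; exact h3
    · rw [evalComb_two]; exact h1
    · rw [evalComb_eq, map_sub, ← evalComb_eq, ← evalComb_eq, evalComb_two, evalComb_two, h5,
        sub_self]
    · rw [evalComb_two]; exact h2
    · rw [evalComb_two]; exact h4

theorem mem_modB (M : Rep K Vtx d) : M ∈ modVariety (idB K) d ↔
    (M _ _ ax * M _ _ ax = 0 ∧ M _ _ ay * M _ _ ay = 0 ∧ M _ _ aα * M _ _ ax = 0 ∧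
      M _ _ ay * M _ _ aγ = 0 ∧ M _ _ aβ * M _ _ ax = 0 ∧ M _ _ ay * M _ _ aβ = 0) := by
  constructor
  · intro h
    refine ⟨?_, ?_, ?_, ?_, ?_, ?_⟩ <;> rw [← evalComb_two] <;>
      exact h _ _ _ (PathIdeal.single_mem_long (le_refl 2))
  · rintro ⟨h1, h2, h3, h4, h5, h6⟩ i j f hf
    have key : ∀ p : Path i j, 2 ≤ p.length → evalPath M p = 0 := by
      intro p hp
      rcases p with _ | ⟨p, b⟩
      · simp at hp
      · rcases p with _ | ⟨p, a⟩
        · simp at hp
        · rw [evalPath, evalPath, ← Matrix.mul_assoc]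
          have : M _ _ b * M _ _ a = 0 := by
            change Arr _ _ at a
            change Arr _ _ at b
            cases a <;> cases b <;> assumption
          rw [this, Matrix.zero_mul]
    rw [evalComb, Finsupp.sum]
    refine Finset.sum_eq_zero fun p hp => ?_
    rw [key p (hf p hp), smul_zero]

end

end Pool.Agent.helper6.DOrb
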