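import Pool.Agent.helper6.DO.ADO

/-! The invariant closed conditions separating orbits of the second algebra. -/

open Quiver MvPolynomial

namespace Pool.Agent.helper6.DOrb

universe u

variable {K : Type u} [Field K]

/-- the condition -/
def EE (a b : K) (α : Matrix (Fin 1) (Fin 3) K) (β : Matrix (Fin 3) (Fin 3) K)
    (γ : Matrix (Fin 3) (Fin 1) K) (x y : Matrix (Fin 3) (Fin 3) K)
    (n : Matrix (Fin 3) (Fin 1) K) (μ : Matrix (Fin 1) (Fin 3) K) : Prop :=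
  (b * (α * (β + n * μ).adjugate * γ) 0 0) • (x * (β + n * μ).adjugate * y) =
    a • (x * (β + n * μ).adjugate * γ * (α * (β + n * μ).adjugate * y))

theorem adj_unit {m : ℕ} (g : GL (Fin m) K) : (g.val).adjugate = g.val.det • (g⁻¹).val := by
  have h : g.val.adjugate * (g.val * (g⁻¹).val) = g.val.det • (g⁻¹).val := by
    rw [← Matrix.mul_assoc, Matrix.adjugate_mul, Matrix.smul_mul, Matrix.one_mul]
  rw [← h, ← Units.val_mul, mul_inv_cancel, Units.val_one, Matrix.mul_one]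

theorem one_by_one (W : Matrix (Fin 1) (Fin 1) K) : W = W 0 0 • (1 : Matrix (Fin 1) (Fin 1) K) := by
  ext i j
  fin_cases i
  fin_cases j
  simp

theorem EE_act (a b : K) (α : Matrix (Fin 1) (Fin 3) K) (β : Matrix (Fin 3) (Fin 3) K)
    (γ : Matrix (Fin 3) (Fin 1) K) (x y : Matrix (Fin 3) (Fin 3) K)
    (g0 g3 : GL (Fin 1) K) (g1 g2 : GL (Fin 3) K)
    (h : ∀ n μ, EE a b α β γ x y n μ) (n : Matrix (Fin 3) (Fin 1) K)
    (μ : Matrix (Fin 1) (Fin 3) K) :
    EE a b (g0.val * α * (g1⁻¹).val) (g2.val * β * (g1⁻¹).val) (g2.val * γ * (g3⁻¹).val)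
      (g1.val * x * (g1⁻¹).val) (g2.val * y * (g2⁻¹).val) n μ := by
  have i1 : (g1⁻¹).val * g1.val = 1 := by rw [← Units.val_mul, inv_mul_cancel, Units.val_one]
  have i1' : g1.val * (g1⁻¹).val = 1 := by rw [← Units.val_mul, mul_inv_cancel, Units.val_one]
  have i2 : (g2⁻¹).val * g2.val = 1 := by rw [← Units.val_mul, inv_mul_cancel, Units.val_one]
  have i2' : g2.val * (g2⁻¹).val = 1 := by rw [← Units.val_mul, mul_inv_cancel, Units.val_one]
  have h0 := h ((g2⁻¹).val * n) (μ * g1.val)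
  rw [EE] at h0 ⊢
  obtain ⟨T, hT⟩ : ∃ T, T = β + (g2⁻¹).val * n * (μ * g1.val) := ⟨_, rfl⟩
  rw [← hT] at h0
  have hT' : g2.val * β * (g1⁻¹).val + n * μ = g2.val * T * (g1⁻¹).val := by
    rw [hT, Matrix.mul_add, Matrix.add_mul]
    congr 1
    calc n * μ = (g2.val * (g2⁻¹).val) * n * μ * (g1.val * (g1⁻¹).val) := by
          rw [i1', i2', Matrix.one_mul, Matrix.mul_one]
      _ = _ := by simp only [Matrix.mul_assoc]
  obtain ⟨c, hc⟩ : ∃ c : K, c = (g1⁻¹).val.det * g2.val.det := ⟨_, rfl⟩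
  have hadj : (g2.val * β * (g1⁻¹).val + n * μ).adjugate =
      c • (g1.val * T.adjugate * (g2⁻¹).val) := by
    rw [hT', Matrix.adjugate_mul_distrib, Matrix.adjugate_mul_distrib, adj_unit, adj_unit,
      inv_inv, Matrix.smul_mul, Matrix.mul_smul, Matrix.mul_smul, smul_smul, hc,
      Matrix.mul_assoc]
  have k1 : ∀ {m : ℕ} (W : Matrix (Fin 3) (Fin m) K), (g1⁻¹).val * (g1.val * W) = W := by
    intro m W; rw [← Matrix.mul_assoc, i1, Matrix.one_mul]
  have k2 : ∀ {m : ℕ} (W : Matrix (Fin 3) (Fin m) K), (g2⁻¹).val * (g2.val * W) = W := by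
    intro m W; rw [← Matrix.mul_assoc, i2, Matrix.one_mul]
  rw [hadj]
  have e1 : g0.val * α * (g1⁻¹).val * (c • (g1.val * T.adjugate * (g2⁻¹).val)) *
      (g2.val * γ * (g3⁻¹).val) = c • (g0.val * (α * T.adjugate * γ) * (g3⁻¹).val) := by
    simp only [Matrix.mul_smul, Matrix.smul_mul, Matrix.mul_assoc, k1, k2]
  have e2 : g1.val * x * (g1⁻¹).val * (c • (g1.val * T.adjugate * (g2⁻¹).val)) *
      (g2.val * y * (g2⁻¹).val) = c • (g1.val * (x * T.adjugate * y) * (g2⁻¹).val) := by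
    simp only [Matrix.mul_smul, Matrix.smul_mul, Matrix.mul_assoc, k1, k2]
  have e3 : g1.val * x * (g1⁻¹).val * (c • (g1.val * T.adjugate * (g2⁻¹).val)) *
      (g2.val * γ * (g3⁻¹).val) = c • (g1.val * (x * T.adjugate * γ) * (g3⁻¹).val) := by
    simp only [Matrix.mul_smul, Matrix.smul_mul, Matrix.mul_assoc, k1, k2]
  have e4 : g0.val * α * (g1⁻¹).val * (c • (g1.val * T.adjugate * (g2⁻¹).val)) *
      (g2.val * y * (g2⁻¹).val) = c • (g0.val * (α * T.adjugate * y) * (g2⁻¹).val) := by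
    simp only [Matrix.mul_smul, Matrix.smul_mul, Matrix.mul_assoc, k1, k2]
  rw [e1, e2, e3, e4]
  obtain ⟨s0, hs0⟩ : ∃ s, s = g0.val 0 0 := ⟨_, rfl⟩
  obtain ⟨s3, hs3⟩ : ∃ s, s = (g3⁻¹).val 0 0 := ⟨_, rfl⟩
  have f0 : g0.val = s0 • (1 : Matrix (Fin 1) (Fin 1) K) := by rw [hs0]; exact one_by_one _
  have f3 : (g3⁻¹).val = s3 • (1 : Matrix (Fin 1) (Fin 1) K) := by rw [hs3]; exact one_by_one _
  rw [f0, f3]
  simp only [Matrix.mul_smul, Matrix.smul_mul, Matrix.mul_one, Matrix.one_mul, Matrix.smul_apply,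
    smul_eq_mul, smul_smul]
  have h1 := congrArg (fun W => (c * c * s0 * s3) • (g1.val * W * (g2⁻¹).val)) h0
  simp only [Matrix.mul_smul, Matrix.smul_mul, smul_smul] at h1
  have e5 : g1.val * (x * T.adjugate * γ) * (α * T.adjugate * y * (g2⁻¹).val) =
      g1.val * (x * T.adjugate * γ * (α * T.adjugate * y)) * (g2⁻¹).val := by
    simp only [Matrix.mul_assoc]
  rw [e5]
  convert h1 using 2 <;> ring

theorem EE_normal (a b a0 a2 g1 g2 b10 b12 b20 b22 : K)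
    (h : b * ((-b22) * (a0 * (-b22 * g1 + b12 * g2) + a2 * (b20 * g1 - b10 * g2))) =
      a * ((-b22 * g1 + b12 * g2) * (-a0 * b22 + a2 * b20)))
    (n : Matrix (Fin 3) (Fin 1) K) (μ : Matrix (Fin 1) (Fin 3) K) :
    EE a b !![a0, 0, a2] !![0, 0, 0; b10, 0, b12; b20, 0, b22] !![0; g1; g2]
      !![0, 0, 0; 1, 0, 0; 0, 0, 0] !![0, 0, 0; 1, 0, 0; 0, 0, 0] n μ := by
  rw [EE, Matrix.adjugate_fin_three]
  ext i j
  fin_cases i <;> fin_cases j <;>
    simp [Matrix.mul_apply, Fin.sum_univ_succ]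
  linear_combination (n 0 0 * μ 0 1) ^ 2 * h

theorem EE_test (a b a0 a2 g1 g2 b10 b12 b20 b22 : K)
    (h : EE a b !![a0, 0, a2] !![0, 0, 0; b10, 0, b12; b20, 0, b22] !![0; g1; g2]
      !![0, 0, 0; 1, 0, 0; 0, 0, 0] !![0, 0, 0; 1, 0, 0; 0, 0, 0] !![1; 0; 0] !![0, 1, 0]) :
    b * ((-b22) * (a0 * (-b22 * g1 + b12 * g2) + a2 * (b20 * g1 - b10 * g2))) =
      a * ((-b22 * g1 + b12 * g2) * (-a0 * b22 + a2 * b20)) := by
  rw [EE, Matrix.adjugate_fin_three] at h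
  have := congrFun (congrFun h 1) 0
  simp [Matrix.mul_apply, Fin.sum_univ_succ] at this
  linear_combination this

end Pool.Agent.helper6.DOrb
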