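import Pool.Agent.helper6.DO.Tab

/-! Kernel checks of the tables. -/

namespace Pool.Agent.helper6.DOrb

/-- `f 0 + ... + f (n - 1)` -/
def sumTo {R : Type*} [Zero R] [Add R] : ℕ → (ℕ → R) → R
  | 0, _ => 0
  | n + 1, f => sumTo n f + f n

/-- `f 0 && ... && f (n - 1)` -/
def allTo : ℕ → (ℕ → Bool) → Bool
  | 0, _ => true
  | n + 1, f => allTo n f && f n

theorem allTo_spec {n : ℕ} {f : ℕ → Bool} (h : allTo n f = true) : ∀ i < n, f i = true := by
  induction n with
  | zero => intro i hi; omega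
  | succ n ih =>
    rw [allTo, Bool.and_eq_true] at h
    intro i hi
    rcases Nat.lt_succ_iff_lt_or_eq.1 hi with h1 | rfl
    · exact ih h.1 i h1
    · exact h.2

/-- the coordinates of the differential, in terms of coded entries -/
def Dn {R : Type*} [Zero R] [Add R] [Mul R] (da db : ℕ → ℕ) (X Y G : ℕ → R) :
    ℕ → ℕ → ℕ → R
  | 0, i, j => sumTo (db 1) (fun m => Y (2 * i + m) * G (2 * m + j)) +
      sumTo (da 3) (fun m => G (20 + 2 * i + m) * X (2 * m + j))
  | 1, i, j => sumTo (db 1) (fun m => Y (4 + 2 * i + m) * G (2 * m + j)) +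
      sumTo (db 2) (fun m => Y (12 + 2 * i + m) * G (8 + 2 * m + j)) +
      (sumTo (da 3) (fun m => G (28 + 2 * i + m) * X (2 * m + j)) +
        sumTo (da 4) (fun m => G (32 + 2 * i + m) * X (4 + 2 * m + j)))
  | 2, i, j => sumTo (db 1) (fun m => Y (2 * i + m) * G (4 + 2 * m + j)) +
      sumTo (db 2) (fun m => Y (8 + 2 * i + m) * G (12 + 2 * m + j)) +
      (sumTo (da 3) (fun m => G (20 + 2 * i + m) * X (8 + 2 * m + j)) +
        sumTo (da 4) (fun m => G (24 + 2 * i + m) * X (12 + 2 * m + j)))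
  | 3, i, j => sumTo (db 2) (fun m => Y (12 + 2 * i + m) * G (12 + 2 * m + j)) +
      sumTo (da 4) (fun m => G (32 + 2 * i + m) * X (12 + 2 * m + j))
  | 4, i, j => sumTo (db 1) (fun m => Y (4 + 2 * i + m) * G (4 + 2 * m + j)) +
      sumTo (db 2) (fun m => Y (12 + 2 * i + m) * G (16 + 2 * m + j)) +
      (sumTo (da 3) (fun m => G (28 + 2 * i + m) * X (8 + 2 * m + j)) +
        sumTo (da 4) (fun m => G (36 + 2 * i + m) * X (12 + 2 * m + j)))
  | 5, i, j => sumTo (db 1) (fun m => Y (16 + 2 * i + m) * G (2 * m + j)) +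
      sumTo (da 0) (fun m => G (40 + 2 * i + m) * X (16 + 2 * m + j))
  | 6, i, j => sumTo (db 1) (fun m => Y (16 + 2 * i + m) * G (4 + 2 * m + j)) +
      sumTo (db 2) (fun m => Y (20 + 2 * i + m) * G (12 + 2 * m + j)) +
      sumTo (da 0) (fun m => G (40 + 2 * i + m) * X (20 + 2 * m + j))
  | 7, i, j => sumTo (da 3) (fun m => G (20 + 2 * i + m) * X (24 + 2 * m + j)) +
      sumTo (db 5) (fun m => Y (24 + 2 * i + m) * G (44 + 2 * m + j))
  | 8, i, j => sumTo (da 3) (fun m => G (28 + 2 * i + m) * X (24 + 2 * m + j)) +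
      sumTo (da 4) (fun m => G (32 + 2 * i + m) * X (28 + 2 * m + j)) +
      sumTo (db 5) (fun m => Y (28 + 2 * i + m) * G (44 + 2 * m + j))
  | _, _, _ => 0

/-- source sort of a coordinate block -/
def ts (t : ℕ) : ℕ := [1, 1, 2, 2, 2, 1, 2, 5, 5].getD t 0

/-- target sort of a coordinate block -/
def tt (t : ℕ) : ℕ := [3, 4, 3, 4, 4, 0, 0, 3, 4].getD t 0

/-- dimension vector of piece `a` -/
def dm (a s : ℕ) : ℕ := (dmT.getD a []).getD s 0

/-- entries of piece `a` -/
def pcZ (a c : ℕ) : ℤ := if (pcT.getD a 0).testBit c then 1 else 0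

/-- the number `e a b` -/
def ee (a b : ℕ) : ℕ := (eT.getD a []).getD b 0

/-- look up a certificate -/
def look : List (ℕ × ℕ × ℕ) → ℕ → ℕ × ℕ
  | [], _ => (0, 0)
  | (c, p) :: l, k => bif Nat.beq c k then p else look l k

/-- the vector encoded by a pair of masks -/
def unmask (p : ℕ × ℕ) (c : ℕ) : ℤ :=
  bif p.1.testBit c then 1 else bif p.2.testBit c then -1 else 0

/-- certificates for the pair `(a, b)` -/
def cert (a b k : ℕ) : ℕ → ℤ := unmask (look ((sT.getD a []).getD b []) k)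

/-- check one coordinate -/
def chk1 (da db : ℕ → ℕ) (X Y G : ℕ → ℤ) (t i j : ℕ) : Bool :=
  allTo 9 fun t' => allTo (db (tt t')) fun i' => allTo (da (ts t')) fun j' =>
    decide (Dn da db X Y G t' i' j' = if t' = t ∧ i' = i ∧ j' = j then 1 else 0)

/-- check one pair of pieces -/
def chk2 (a b : ℕ) : Bool :=
  allTo 9 fun t => allTo (dm b (tt t)) fun i => allTo (dm a (ts t)) fun j =>
    chk1 (dm a) (dm b) (pcZ a) (pcZ b) (cert a b (4 * t + 2 * i + j)) t i j

/-- check all pairs -/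
def chk3 : Bool :=
  allTo 32 fun a => allTo 32 fun b => !(Nat.beq (ee a b) 0 && Nat.beq (ee b a) 0) || chk2 a b

set_option maxRecDepth 100000 in
theorem chk3_true : chk3 = true := by decide +kernel

end Pool.Agent.helper6.DOrb
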