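import Pool.Agent.helper6.DO.Defs

/-! Zariski topology on representation spaces: basic facts. -/

open Quiver MvPolynomial

namespace Pool.Agent.helper6.DOrb

universe u

variable {K : Type u} [Field K] {V : Type} [Quiver.{0} V] {d : V → ℕ}

theorem isClosed_zariski_iff {σ : Type} (Z : Set (σ → K)) :
    @IsClosed _ (zariski K σ) Z ↔ ∃ I : Set (MvPolynomial σ K), Z = {x | ∀ p ∈ I, eval x p = 0} := by
  let _ := zariski K σ
  rw [← isOpen_compl_iff]
  show Zᶜᶜ ∈ _ ↔ _
  rw [compl_compl]
  rfl

theorem isClosed_rep_iff (Z : Set (Rep K V d)) :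
    IsClosed Z ↔ ∃ I : Set (MvPolynomial (Coord V d) K), Z = {M | ∀ p ∈ I, eval (coords M) p = 0} := by
  rw [isClosed_induced_iff (t := zariski K (Coord V d))]
  constructor
  · rintro ⟨t, ht, rfl⟩
    obtain ⟨I, rfl⟩ := (isClosed_zariski_iff t).1 ht
    exact ⟨I, rfl⟩
  · rintro ⟨I, rfl⟩
    exact ⟨{x | ∀ p ∈ I, eval x p = 0}, (isClosed_zariski_iff _).2 ⟨I, rfl⟩, rfl⟩

theorem mem_closure_rep_iff (S : Set (Rep K V d)) (M : Rep K V d) :
    M ∈ closure S ↔ ∀ p : MvPolynomial (Coord V d) K, (∀ N ∈ S, eval (coords N) p = 0) →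
      eval (coords M) p = 0 := by
  constructor
  · intro h p hp
    have hc : IsClosed {M : Rep K V d | ∀ q ∈ ({p} : Set (MvPolynomial (Coord V d) K)),
        eval (coords M) q = 0} := (isClosed_rep_iff _).2 ⟨{p}, rfl⟩
    have := closure_minimal (s := S) (fun N hN => by
      intro q hq; rw [Set.mem_singleton_iff] at hq; subst hq; exact hp N hN) hc h
    exact this p rfl
  · intro h
    rw [mem_closure_iff]
    intro o ho hM
    by_contra hcon
    have hsub : S ⊆ oᶜ := by
      intro N hN hNo
      exact hcon ⟨N, hNo, hN⟩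
    obtain ⟨I, hI⟩ := (isClosed_rep_iff _).1 ho.isClosed_compl
    have : M ∈ oᶜ := by
      rw [hI]
      intro p hp
      apply h p
      intro N hN
      have := hsub hN
      rw [hI] at this
      exact this p hp
    exact this hM

/-- polynomial functions on the representation space -/
def PolyFun (f : Rep K V d → K) : Prop :=
  ∃ p : MvPolynomial (Coord V d) K, ∀ M, eval (coords M) p = f M

theorem PolyFun.const (c : K) : PolyFun (fun _ : Rep K V d => c) := ⟨C c, fun M => by simp⟩

theorem PolyFun.add {f g : Rep K V d → K} (hf : PolyFun f) (hg : PolyFun g) :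
    PolyFun (fun M => f M + g M) := by
  obtain ⟨p, hp⟩ := hf
  obtain ⟨q, hq⟩ := hg
  exact ⟨p + q, fun M => by simp [hp, hq]⟩

theorem PolyFun.mul {f g : Rep K V d → K} (hf : PolyFun f) (hg : PolyFun g) :
    PolyFun (fun M => f M * g M) := by
  obtain ⟨p, hp⟩ := hf
  obtain ⟨q, hq⟩ := hg
  exact ⟨p * q, fun M => by simp [hp, hq]⟩

theorem PolyFun.sub {f g : Rep K V d → K} (hf : PolyFun f) (hg : PolyFun g) :
    PolyFun (fun M => f M - g M) := by
  obtain ⟨p, hp⟩ := hf
  obtain ⟨q, hq⟩ := hg
  exact ⟨p - q, fun M => by simp [hp, hq]⟩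

theorem PolyFun.sum {ι : Type*} (s : Finset ι) (f : ι → Rep K V d → K)
    (hf : ∀ i ∈ s, PolyFun (f i)) : PolyFun (fun M => ∑ i ∈ s, f i M) := by
  classical
  induction s using Finset.induction_on with
  | empty => simpa using PolyFun.const (K := K) (V := V) (d := d) 0
  | insert a s ha ih =>
    have h1 := (hf a (Finset.mem_insert_self a s)).add
      (ih fun i hi => hf i (Finset.mem_insert_of_mem hi))
    obtain ⟨p, hp⟩ := h1
    exact ⟨p, fun M => by rw [hp]; simp only [Finset.sum_insert ha]⟩

theorem PolyFun.entry {i j : V} (a : i ⟶ j) (r : Fin (d j)) (s : Fin (d i)) :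
    PolyFun (fun M : Rep K V d => M i j a r s) :=
  ⟨X ⟨i, j, a, r, s⟩, fun M => by simp [coords]⟩

/-- the set of common zeros of polynomial functions is closed -/
theorem isClosed_of_polyFun {ι : Sort*} (f : ι → Rep K V d → K) (hf : ∀ i, PolyFun (f i)) :
    IsClosed {M : Rep K V d | ∀ i, f i M = 0} := by
  rw [isClosed_rep_iff]
  refine ⟨{p | ∃ i, ∀ M, eval (coords M) p = f i M}, ?_⟩
  ext M
  constructor
  · rintro h p ⟨i, hi⟩
    rw [hi]; exact h i
  · intro h i
    obtain ⟨p, hp⟩ := hf i
    rw [← hp]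
    exact h p ⟨i, hp⟩

theorem polyFun_evalPath {i j : V} (p : Path i j) (r : Fin (d j)) (s : Fin (d i)) :
    PolyFun (fun M : Rep K V d => evalPath M p r s) := by
  induction p with
  | nil =>
    have := PolyFun.const (K := K) (V := V) (d := d) ((1 : Matrix (Fin (d i)) (Fin (d i)) K) r s)
    exact this
  | cons p a ih =>
    have : ∀ M : Rep K V d, evalPath M (p.cons a) r s = ∑ t, M _ _ a r t * evalPath M p t s := by
      intro M; rw [evalPath, Matrix.mul_apply]
    simp_rw [this]
    exact PolyFun.sum _ _ fun t _ => (PolyFun.entry a r t).mul (ih t)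

theorem polyFun_evalComb {i j : V} (f : Path i j →₀ K) (r : Fin (d j)) (s : Fin (d i)) :
    PolyFun (fun M : Rep K V d => evalComb M f r s) := by
  have : ∀ M : Rep K V d, evalComb M f r s = ∑ p ∈ f.support, f p * evalPath M p r s := by
    intro M
    rw [evalComb, Finsupp.sum, Matrix.sum_apply]
    simp
  simp_rw [this]
  exact PolyFun.sum _ _ fun p _ => (PolyFun.const (f p)).mul (polyFun_evalPath p r s)

theorem isClosed_modVariety (I : PathIdeal K V) : IsClosed (modVariety I d) := by
  have h := isClosed_of_polyFun (K := K) (V := V) (d := d)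
    (ι := (Σ' (i j : V) (f : Path i j →₀ K) (_ : f ∈ I.carrier i j) (_ : Fin (d j)), Fin (d i)))
    (fun x M => evalComb M x.2.2.1 x.2.2.2.2.1 x.2.2.2.2.2)
    (fun x => polyFun_evalComb _ _ _)
  convert h using 1
  ext M
  constructor
  · rintro hM ⟨i, j, f, hf, r, s⟩
    have := hM i j f hf
    simp only
    rw [this]; rfl
  · intro hM i j f hf
    ext r s
    exact hM ⟨i, j, f, hf, r, s⟩

theorem act_mul (g h : ∀ i : V, GL (Fin (d i)) K) (M : Rep K V d) :
    act g (act h M) = act (fun i => g i * h i) M := by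
  funext i j a
  simp [act, mul_inv_rev, Matrix.mul_assoc]

theorem act_one (M : Rep K V d) : act (fun _ => 1) M = M := by
  funext i j a
  simp [act]

theorem mem_orbit_self (M : Rep K V d) : M ∈ orbit M := ⟨fun _ => 1, (act_one M).symm⟩

theorem act_mem_orbit (g : ∀ i : V, GL (Fin (d i)) K) {M N : Rep K V d} (h : N ∈ orbit M) :
    act g N ∈ orbit M := by
  obtain ⟨k, rfl⟩ := h
  exact ⟨_, act_mul _ _ _⟩

theorem orbit_symm {M N : Rep K V d} (h : N ∈ orbit M) : M ∈ orbit N := by
  obtain ⟨k, rfl⟩ := h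
  refine ⟨fun i => (k i)⁻¹, ?_⟩
  rw [act_mul]
  simp [act_one]

theorem polyFun_comp_act (g : ∀ i : V, GL (Fin (d i)) K) (p : MvPolynomial (Coord V d) K) :
    PolyFun (fun M : Rep K V d => eval (coords (act g M)) p) := by
  induction p using MvPolynomial.induction_on with
  | C c => simpa using PolyFun.const (K := K) (V := V) (d := d) c
  | add p q hp hq => simpa using hp.add hq
  | mul_X p c hp =>
    have hc : PolyFun (fun M : Rep K V d => coords (act g M) c) := by
      obtain ⟨i, j, a, r, s⟩ := c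
      have : ∀ M : Rep K V d, coords (act g M) ⟨i, j, a, r, s⟩ =
          ∑ t, ((∑ t', (g j : Matrix (Fin (d j)) (Fin (d j)) K) r t' * M i j a t' t) *
            (((g i)⁻¹ : GL (Fin (d i)) K) : Matrix (Fin (d i)) (Fin (d i)) K) t s) := by
        intro M
        simp [coords, act, Matrix.mul_apply]
      simp_rw [this]
      exact PolyFun.sum _ _ fun t _ => (PolyFun.sum _ _ fun t' _ =>
        (PolyFun.const _).mul (PolyFun.entry a t' t)).mul (PolyFun.const _)
    simpa using hp.mul hc

/-- the closure of an orbit is stable under the action -/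
theorem act_mem_closure_orbit (g : ∀ i : V, GL (Fin (d i)) K) {M N : Rep K V d}
    (h : N ∈ closure (orbit M)) : act g N ∈ closure (orbit M) := by
  rw [mem_closure_rep_iff] at h ⊢
  intro p hp
  obtain ⟨q, hq⟩ := polyFun_comp_act g p
  simp only at hq
  rw [← hq]
  apply h
  intro N hN
  rw [hq]
  exact hp _ (act_mem_orbit g hN)

theorem mem_closure_orbit_of_mem_orbit {M N N' : Rep K V d} (h : N ∈ closure (orbit M))
    (hN : N' ∈ orbit N) : N' ∈ closure (orbit M) := by
  obtain ⟨g, rfl⟩ := hN
  exact act_mem_closure_orbit g h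

theorem evalPath_act (g : ∀ i : V, GL (Fin (d i)) K) (M : Rep K V d) {i j : V} (p : Path i j) :
    evalPath (act g M) p = (g j : Matrix (Fin (d j)) (Fin (d j)) K) * evalPath M p *
      (((g i)⁻¹ : GL (Fin (d i)) K) : Matrix (Fin (d i)) (Fin (d i)) K) := by
  induction p with
  | nil =>
    rw [evalPath, evalPath, Matrix.mul_one]
    rw [← Units.val_mul, mul_inv_cancel, Units.val_one]
  | @cons b c p a ih =>
    rw [evalPath, evalPath, ih, act]
    simp only [Matrix.mul_assoc]
    congr 2
    rw [← Matrix.mul_assoc, ← Units.val_mul, inv_mul_cancel, Units.val_one, Matrix.one_mul]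

theorem evalComb_act (g : ∀ i : V, GL (Fin (d i)) K) (M : Rep K V d) {i j : V}
    (f : Path i j →₀ K) :
    evalComb (act g M) f = (g j : Matrix (Fin (d j)) (Fin (d j)) K) * evalComb M f *
      (((g i)⁻¹ : GL (Fin (d i)) K) : Matrix (Fin (d i)) (Fin (d i)) K) := by
  rw [evalComb, evalComb, Finsupp.sum, Finsupp.sum, Matrix.mul_sum, Matrix.sum_mul]
  refine Finset.sum_congr rfl fun p _ => ?_
  rw [evalPath_act]
  simp

theorem act_mem_modVariety (I : PathIdeal K V) (g : ∀ i : V, GL (Fin (d i)) K) {M : Rep K V d}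
    (h : M ∈ modVariety I d) : act g M ∈ modVariety I d := by
  intro i j f hf
  rw [evalComb_act, h i j f hf]
  simp

theorem orbit_subset_modVariety (I : PathIdeal K V) {M : Rep K V d}
    (h : M ∈ modVariety I d) : orbit M ⊆ modVariety I d := by
  rintro _ ⟨g, rfl⟩
  exact act_mem_modVariety I g h

theorem closure_orbit_subset_modVariety (I : PathIdeal K V) {M : Rep K V d}
    (h : M ∈ modVariety I d) : closure (orbit M) ⊆ modVariety I d :=
  closure_minimal (orbit_subset_modVariety I h) (isClosed_modVariety I)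

/-- If `mod(A,d)` is covered by finitely many closures of irreducible orbits then all components are
closures of orbits. -/
theorem dense_orbit_of_finite_cover (I : PathIdeal K V) {ι : Type*} [Finite ι]
    (m : ι → Rep K V d) (hm : ∀ t, m t ∈ modVariety I d)
    (hirr : ∀ t, IsIrreducible (orbit (m t)))
    (hcov : ∀ M ∈ modVariety I d, ∃ t, M ∈ closure (orbit (m t)))
    (C : Set (Rep K V d)) (hC : IsComponent (modVariety I d) C) :
    ∃ M₀ ∈ C, C = closure (orbit M₀) := by
  classical
  cases nonempty_fintype ι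
  obtain ⟨⟨hCirr, hCX⟩, hmax⟩ := hC
  have h1 := (isIrreducible_iff_sUnion_isClosed.1 hCirr)
    (Finset.univ.image fun t => closure (orbit (m t)))
    (by
      intro z hz
      simp only [Finset.mem_image, Finset.mem_univ, true_and] at hz
      obtain ⟨t, rfl⟩ := hz
      exact isClosed_closure)
    (by
      intro M hM
      obtain ⟨t, ht⟩ := hcov M (hCX hM)
      exact ⟨closure (orbit (m t)), by simp, ht⟩)
  obtain ⟨z, hz, hCz⟩ := h1
  simp only [Finset.mem_image, Finset.mem_univ, true_and] at hz
  obtain ⟨t, rfl⟩ := hz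
  have h2 := hmax ⟨(hirr t).closure, closure_orbit_subset_modVariety I (hm t)⟩ hCz
  have h3 : C = closure (orbit (m t)) := le_antisymm hCz h2
  refine ⟨m t, ?_, h3⟩
  rw [h3]
  exact subset_closure (mem_orbit_self _)

end Pool.Agent.helper6.DOrb
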